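import Pool.Agent.Helper14.CW.Chart

/-!
# Cones over planar sets: slicing of integrals
-/

namespace Helper14.MEI3

open Set Metric MeasureTheory Filter Helper80.CW Helper82.CW Helper14.CW
open scoped Topology RealInnerProductSpace

variable (b : OrthonormalBasis (Fin 3) ℝ E3)

/-- the integral over the half space in slices of the cone -/
theorem cyl_coords {g : E3 → ℝ} (hg : Integrable g) (hz : ∀ x, ⟪b 2, x⟫ ≤ 0 → g x = 0) :
    ∫ x, g x = ∫ z in Ioi (0 : ℝ), z ^ 2 * ∫ p : ℝ × ℝ, g (z • pt b p.1 p.2 1) := by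
  rw [integral_coords b]
  set G : ℝ × (ℝ × ℝ) → ℝ := fun q => g (pt b q.2.1 q.2.2 q.1) with hG
  have hint : Integrable G (volume.prod volume) := by
    have h1 := (crd_mp b).symm.integrable_comp_emb (crd b).symm.measurableEmbedding (g := g)
    have h0 := h1.2 hg
    have h2 : g ∘ (crd b).symm = G := by
      ext q
      simp only [hG, Function.comp]
      have h3 := pt_crd b ((crd b).symm q)
      rw [(crd b).apply_symm_apply] at h3
      rw [h3]
    rw [h2] at h0
    exact h0
  have e1 : ∫ q, G q = ∫ z, ∫ p, G (z, p) := integral_prod G hint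
  rw [e1, ← integral_indicator measurableSet_Ioi]
  congr 1
  ext z
  by_cases hz0 : z ∈ Ioi (0 : ℝ)
  · rw [indicator_of_mem hz0]
    have hzp : 0 < z := hz0
    have h1 := Measure.integral_comp_smul (volume : Measure (ℝ × ℝ)) (fun p => G (z, p)) z
    have hfr : Module.finrank ℝ (ℝ × ℝ) = 2 := by simp
    rw [hfr, abs_of_pos (by positivity)] at h1
    have h2 : ∫ p, G (z, p) = z ^ 2 * ∫ p : ℝ × ℝ, G (z, z • p) := by
      rw [h1, smul_eq_mul, ← mul_assoc, mul_inv_cancel₀ (by positivity), one_mul]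
    rw [h2]
    congr 1
    congr 1
    ext p
    simp only [hG]
    have h3 : pt b (z • p).1 (z • p).2 z = z • pt b p.1 p.2 1 := by
      have := pt_smul b z p.1 p.2 1
      rw [mul_one] at this
      simpa using this
    rw [h3]
  · rw [indicator_of_notMem hz0]
    have h1 : ∀ p, G (z, p) = 0 := by
      intro p
      simp only [hG]
      apply hz
      rw [inner_pt_b]
      simpa using hz0
    simp [h1]

/-- planar point -/
noncomputable def Np (p : ℝ × ℝ) : E3 := pt b p.1 p.2 1

theorem Np_cont : Continuous (Np b) := by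
  unfold Np pt
  fun_prop

theorem Np_inner (p : ℝ × ℝ) : ⟪b 2, Np b p⟫ = 1 := by
  unfold Np
  rw [inner_pt_b]
  simp

theorem Np_norm (p : ℝ × ℝ) : ‖Np b p‖ = Nn p := norm_pt_one b p

theorem mem_cone_Np {A : Set (ℝ × ℝ)} {z : ℝ} (hz : 0 < z) (p : ℝ × ℝ) :
    z • Np b p ∈ cone b A ↔ p ∈ A := by
  unfold Np
  rw [← pt_smul, mem_cone_pt, mul_one, mul_div_cancel_left₀ _ hz.ne',
    mul_div_cancel_left₀ _ hz.ne']
  constructor
  · exact fun h => h.2
  · exact fun h => ⟨hz, h⟩

/-- affine combinations of planar points -/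
theorem Np_comb (p q : ℝ × ℝ) (s t : ℝ) (hst : s + t = 1) :
    Np b (s • p + t • q) = s • Np b p + t • Np b q := by
  unfold Np pt
  obtain rfl : t = 1 - s := by linarith
  simp only [Prod.fst_add, Prod.snd_add, Prod.smul_fst, Prod.smul_snd, smul_eq_mul]
  module

/-- the planar section at height `h` -/
def Sec (A : E3) (h : ℝ) (K : Set E3) : Set (ℝ × ℝ) := {p | A + h • Np b p ∈ K}

variable {b} {A : E3} {h : ℝ} {K : Set E3}

theorem Sec_closed (hK : IsClosed K) : IsClosed (Sec b A h K) := by
  have hc : Continuous (fun p : ℝ × ℝ => A + h • Np b p) := by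
    have := Np_cont b
    fun_prop
  exact hK.preimage hc

theorem Sec_convex (hc : Convex ℝ K) : Convex ℝ (Sec b A h K) := by
  intro p hp q hq s t hs ht hst
  show A + h • Np b (s • p + t • q) ∈ K
  have e : A + h • Np b (s • p + t • q) = s • (A + h • Np b p) + t • (A + h • Np b q) := by
    rw [Np_comb b p q s t hst]
    have e2 : A = s • A + t • A := by rw [← add_smul, hst, one_smul]
    nth_rewrite 1 [e2]
    module
  rw [e]
  exact hc hp hq hs ht hst

/-- the boundary of the section is a null set -/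
theorem Sec_null (hc : Convex ℝ K) : volume (frontier (Sec b A h K)) = 0 :=
  (Sec_convex hc).addHaar_frontier volume

/-- coordinates of a point of the plane -/
theorem exists_plane (hh : 0 < h) {x0 : E3} (hx : ⟪b 2, x0 - A⟫ = h) :
    ∃ p, A + h • Np b p = x0 := by
  refine ⟨(⟪b 0, x0 - A⟫ / h, ⟪b 1, x0 - A⟫ / h), ?_⟩
  have e1 := pt_crd b (x0 - A)
  rw [crd_apply] at e1
  simp only at e1
  unfold Np
  rw [← pt_smul]
  simp only [mul_one]
  rw [mul_div_cancel₀ _ hh.ne', mul_div_cancel₀ _ hh.ne']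
  rw [hx] at e1
  rw [e1]
  abel

/-- interior points of the section are interior points of the body -/
theorem Sec_int (hc : Convex ℝ K) (hh : 0 < h) {x0 : E3} (hx0 : x0 ∈ interior K)
    (hx : ⟪b 2, x0 - A⟫ = h) {p : ℝ × ℝ} (hp : p ∈ interior (Sec b A h K)) :
    A + h • Np b p ∈ interior K := by
  obtain ⟨p0, hp0⟩ := exists_plane (b := b) hh hx
  -- a point beyond `p`
  have h1 : ∃ s : ℝ, 0 < s ∧ p + s • (p - p0) ∈ Sec b A h K := by
    have hcont : Tendsto (fun s : ℝ => p + s • (p - p0)) (𝓝[>] 0) (𝓝 p) := by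
      have : Tendsto (fun s : ℝ => p + s • (p - p0)) (𝓝 0) (𝓝 (p + (0 : ℝ) • (p - p0))) := by
        apply Continuous.tendsto
        fun_prop
      rw [zero_smul, add_zero] at this
      exact this.mono_left nhdsWithin_le_nhds
    have h2 := hcont.eventually (mem_interior_iff_mem_nhds.1 hp)
    obtain ⟨s, hs1, hs2⟩ := (h2.and self_mem_nhdsWithin).exists
    exact ⟨s, hs2, hs1⟩
  obtain ⟨s, hs, hmem⟩ := h1
  have hm : A + h • Np b (p + s • (p - p0)) ∈ K := hmem
  have e : p = (1 / (1 + s)) • (p + s • (p - p0)) + (s / (1 + s)) • p0 := by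
    have hs1 : (1 + s) ≠ 0 := by positivity
    have : (1 + s) • p = (p + s • (p - p0)) + s • p0 := by
      rw [smul_sub]
      module
    have h3 : p = (1 / (1 + s)) • ((1 + s) • p) := by
      rw [smul_smul, one_div, inv_mul_cancel₀ hs1, one_smul]
    nth_rewrite 1 [h3]
    rw [this, smul_add, smul_smul]
    congr 2
    ring
  have e2 : A + h • Np b p = (1 / (1 + s)) • (A + h • Np b (p + s • (p - p0))) +
      (s / (1 + s)) • x0 := by
    have hs1 : (1 + s) ≠ 0 := by positivity
    have hsum : 1 / (1 + s) + s / (1 + s) = 1 := by field_simp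
    nth_rewrite 1 [e]
    rw [Np_comb b _ _ _ _ hsum, ← hp0]
    have e3 : A = (1 / (1 + s)) • A + (s / (1 + s)) • A := by rw [← add_smul, hsum, one_smul]
    nth_rewrite 1 [e3]
    module
  rw [e2]
  have hs1 : 0 < 1 / (1 + s) := by positivity
  have hs2 : 0 < s / (1 + s) := by positivity
  have hsum : 1 / (1 + s) + s / (1 + s) = 1 := by field_simp
  exact hc.combo_self_interior_mem_interior hm hx0 hs1.le hs2 hsum

/-- points not on the boundary of the section are not on the boundary of the body -/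
theorem Sec_frontier (hK : IsClosed K) (hc : Convex ℝ K) (hh : 0 < h) {x0 : E3}
    (hx0 : x0 ∈ interior K) (hx : ⟪b 2, x0 - A⟫ = h) {p : ℝ × ℝ}
    (hp : p ∉ frontier (Sec b A h K)) : A + h • Np b p ∉ frontier K := by
  intro hf
  rw [frontier, (Sec_closed hK).closure_eq] at hp
  rw [frontier, hK.closure_eq] at hf
  by_cases h1 : p ∈ interior (Sec b A h K)
  · exact hf.2 (Sec_int hc hh hx0 hx h1)
  · exact hp ⟨hf.1, h1⟩

end Helper14.MEI3
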