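import Pool.Agent.Helper14.MEI3.Hom

/-!
# Volume and solid angle of the face cells in terms of the pair measure
-/

namespace Helper14.MEI3

open Set Metric MeasureTheory Filter Helper80.CW Helper82.CW Helper14.CW Helper14.MEI2
open Helper93.MEI Helper22.Sig
open scoped Topology RealInnerProductSpace

/-- the smooth step, `0` up to `1/2`, `1` from `3/4` -/
noncomputable def chs (r : ℝ) : ℝ := Real.smoothTransition (4 * r - 2)

theorem chs_cd {n : ℕ∞} : ContDiff ℝ n chs := by
  have h1 : ContDiff ℝ n (fun r : ℝ => 4 * r - 2) := by fun_prop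
  exact Real.smoothTransition.contDiff.comp h1

theorem chs_zero {r : ℝ} (h : r ≤ 1 / 2) : chs r = 0 :=
  Real.smoothTransition.zero_of_nonpos (by linarith)

theorem chs_one {r : ℝ} (h : 3 / 4 ≤ r) : chs r = 1 :=
  Real.smoothTransition.one_of_one_le (by linarith)

theorem chs_nonneg (r : ℝ) : 0 ≤ chs r := Real.smoothTransition.nonneg _

theorem chs_le (r : ℝ) : chs r ≤ 1 := Real.smoothTransition.le_one _

theorem chs_deriv (r : ℝ) : HasDerivAt chs (4 * deriv Real.smoothTransition (4 * r - 2)) r := by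
  have h1 : HasDerivAt (fun r : ℝ => 4 * r - 2) 4 r := by
    have := ((hasDerivAt_id r).const_mul 4).sub_const 2
    simpa using this
  have h2 : HasDerivAt Real.smoothTransition (deriv Real.smoothTransition (4 * r - 2)) (4 * r - 2) :=
    ((Real.smoothTransition.contDiff (n := 1)).differentiable one_ne_zero _).hasDerivAt
  have h3 := h2.comp r h1
  rw [mul_comm] at h3
  exact h3

/-- powers with the step -/
noncomputable def psi (m : ℕ) (r : ℝ) : ℝ := chs r * (r⁻¹) ^ m

theorem psi_cd (m : ℕ) {n : ℕ∞} : ContDiff ℝ n (psi m) := by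
  rw [contDiff_iff_contDiffAt]
  intro r
  by_cases hr : r < 1 / 2
  · have h0 : ContDiffAt ℝ n (fun _ : ℝ => (0 : ℝ)) r := contDiffAt_const
    refine h0.congr_of_eventuallyEq ?_
    filter_upwards [isOpen_Iio.mem_nhds hr] with s hs
    unfold psi
    rw [chs_zero (le_of_lt hs), zero_mul]
  · have hr0 : r ≠ 0 := by
      intro h
      rw [h] at hr
      norm_num at hr
    exact chs_cd.contDiffAt.mul ((contDiffAt_inv ℝ hr0).pow m)

theorem psi_zero (m : ℕ) {r : ℝ} (h : r ≤ 1 / 2) : psi m r = 0 := by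
  unfold psi
  rw [chs_zero h, zero_mul]

/-- the step to cut off the homogeneous coordinates -/
noncomputable def xi (r : ℝ) : ℝ := Real.smoothTransition (8 * r - 2) * r⁻¹

theorem xi_cd {n : ℕ∞} : ContDiff ℝ n xi := by
  rw [contDiff_iff_contDiffAt]
  intro r
  by_cases hr : r < 1 / 4
  · have h0 : ContDiffAt ℝ n (fun _ : ℝ => (0 : ℝ)) r := contDiffAt_const
    refine h0.congr_of_eventuallyEq ?_
    filter_upwards [isOpen_Iio.mem_nhds hr] with s hs
    unfold xi
    have hs' : s < 1 / 4 := hs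
    rw [Real.smoothTransition.zero_of_nonpos (by linarith), zero_mul]
  · have hr0 : r ≠ 0 := by
      intro h
      rw [h] at hr
      norm_num at hr
    have h1 : ContDiff ℝ n (fun r : ℝ => 8 * r - 2) := by fun_prop
    exact (Real.smoothTransition.contDiff.comp h1).contDiffAt.mul (contDiffAt_inv ℝ hr0)

theorem xi_eq {r : ℝ} (h : 3 / 8 ≤ r) : xi r = r⁻¹ := by
  unfold xi
  rw [Real.smoothTransition.one_of_one_le (by linarith), one_mul]

variable {a : Fin 4 → E3}

theorem cd_ne {n : ℕ∞} (hn : 1 ≤ n) : (n : WithTop ℕ∞) ≠ 0 := by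
  intro h0
  have h1' : n = 0 := by exact_mod_cast h0
  rw [h1'] at hn
  exact absurd hn (by simp)

/-- radial derivative of a function of the gauge -/
theorem fd_lam (ha : ∀ i j, i ≠ j → dist (a i) (a j) = 1) (i : Fin 4) {φ : ℝ → ℝ} {d : ℝ} {x : E3}
    (h : HasDerivAt φ d (lam a i x)) :
    fderiv ℝ (fun y => φ (lam a i y)) x (x - a i) = d * lam a i x := by
  have h1 := h.comp_hasFDerivAt x (lam_hasFDerivAt a i x)
  have h2 : fderiv ℝ (fun y => φ (lam a i y)) x = d • (-((2 : ℝ) • innerSL ℝ (al a i))) := h1.fderiv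
  have h3 := lam_fd ha i x
  rw [(lam_hasFDerivAt a i x).fderiv] at h3
  rw [h2, ContinuousLinearMap.smul_apply, h3, smul_eq_mul]

section
variable (ha : ∀ i j, i ≠ j → dist (a i) (a j) = 1)
include ha

/-- the walls of the face cell -/
theorem Wc_Cel (i : Fin 4) : Wc a i = Cel (fun k : Fin 4 => if k = i then -al a i else al a k)
    (fun k => if k = i then 1 / 8 - ⟪al a i, cen a⟫ else ⟪al a k, cen a⟫ - 1 / 8) := by
  ext x
  unfold Cel Wc
  simp only [mem_setOf_eq]
  constructor
  · rintro ⟨h0, h⟩ k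
    by_cases hk : k = i
    · subst hk
      simp only [if_true]
      unfold bar at h0
      rw [inner_sub_right] at h0
      rw [inner_neg_left]
      linarith
    · simp only [hk, if_false]
      have := h k hk
      unfold bar at this
      rw [inner_sub_right] at this
      linarith
  · intro h
    constructor
    · have h1 := h i
      simp only [if_true] at h1
      unfold bar
      rw [inner_sub_right]
      rw [inner_neg_left] at h1
      linarith
    · intro k hk
      have h1 := h k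
      simp only [hk, if_false] at h1
      unfold bar
      rw [inner_sub_right]
      linarith

variable {σ : Measure (E3 × E3)} [IsFiniteMeasure σ] {K : Set E3} (hK : IsCompact K)
    (hσ : ∀ᵐ z ∂σ, z.1 ∈ K ∧ z.2 ∈ K) {n : ℕ∞} (hn : 1 ≤ n)
    (hU : ∀ G : E3 → E3, ContDiff ℝ n G → ∫ z, ⟪G z.1, z.1 - z.2⟫ ∂σ = ∫ x in K, dvg G x)
include hK hσ hn hU

/-- **the volume of the face cell** -/
theorem FF1 (i : Fin 4) : ∫ z in {z | z.1 ∈ Wc a i},
    (1 - ((lam a i z.1)⁻¹) ^ 3) * ⟪z.1 - a i, z.1 - z.2⟫ ∂σ = 3 * volume.real (K ∩ Wc a i) := by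
  have g := gram_of_dist ha
  set φ : ℝ → ℝ := fun r => chs r - psi 3 r with hφ
  have hφc : ContDiff ℝ n φ := chs_cd.sub (psi_cd 3)
  set Φ : E3 → ℝ := fun x => φ (lam a i x) with hΦ
  have hΦc : ContDiff ℝ n Φ := hφc.comp (lam_cd a i)
  have hG : ContDiff ℝ n (fun y => Φ y • (y - a i)) := hΦc.smul (contDiff_id.sub contDiff_const)
  have hT : Tang (fun k : Fin 4 => if k = i then -al a i else al a k)
      (fun k => if k = i then 1 / 8 - ⟪al a i, cen a⟫ else ⟪al a k, cen a⟫ - 1 / 8)
      (fun y => Φ y • (y - a i)) := by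
    intro k x hx
    by_cases hk : k = i
    · subst hk
      simp only [if_true] at hx ⊢
      have h1 : bar a k x = 0 := by
        unfold bar
        rw [inner_sub_right]
        rw [inner_neg_left] at hx
        linarith
      have h2 : Φ x = 0 := by
        simp only [hΦ, hφ, psi, lam]
        rw [h1]
        norm_num
      rw [h2, zero_smul, inner_zero_right]
    · simp only [hk, if_false] at hx ⊢
      exact rad_tang ha i Φ ⟨k, hk⟩ x hx
  have h1 := S2_cell hK hσ hn hU _ _ hG hT
  rw [← Wc_Cel ha i] at h1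
  have hlam : ∀ x ∈ Wc a i, 1 < lam a i x := by
    intro x hx
    have := hx.1
    unfold lam
    linarith
  have hval : ∀ x, 1 < lam a i x → Φ x = 1 - ((lam a i x)⁻¹) ^ 3 := by
    intro x hx
    simp only [hΦ, hφ, psi]
    rw [chs_one (by linarith), one_mul]
  have e1 : ∫ z in {z : E3 × E3 | z.1 ∈ Wc a i},
      ⟪(fun y => Φ y • (y - a i)) z.1, z.1 - z.2⟫ ∂σ = ∫ z in {z | z.1 ∈ Wc a i},
      (1 - ((lam a i z.1)⁻¹) ^ 3) * ⟪z.1 - a i, z.1 - z.2⟫ ∂σ := by
    refine setIntegral_congr_fun ((Wc_open ha i).preimage continuous_fst).measurableSet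
      fun z hz => ?_
    show ⟪Φ z.1 • (z.1 - a i), z.1 - z.2⟫ = _
    rw [real_inner_smul_left, hval _ (hlam _ hz)]
  have e2 : ∫ x in K ∩ Wc a i, dvg (fun y => Φ y • (y - a i)) x = ∫ x in K ∩ Wc a i, (3 : ℝ) := by
    refine setIntegral_congr_fun (hK.isClosed.measurableSet.inter (Wc_open ha i).measurableSet)
      fun x hx => ?_
    have hl := hlam x hx.2
    have hd : DifferentiableAt ℝ Φ x := hΦc.differentiable (cd_ne hn) x
    show dvg (fun y => Φ y • (y - a i)) x = 3
    rw [dvg_rad ha i hd]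
    have hl0 : lam a i x ≠ 0 := by linarith
    have hder : HasDerivAt φ (3 * ((lam a i x)⁻¹) ^ 4) (lam a i x) := by
      have h2 : HasDerivAt (fun r : ℝ => 1 - (r⁻¹) ^ 3) (3 * ((lam a i x)⁻¹) ^ 4) (lam a i x) := by
        have h3 := ((hasDerivAt_inv hl0).pow 3).const_sub 1
        refine h3.congr_deriv ?_
        simp only [Nat.cast_ofNat, Nat.reduceSub]
        ring
      refine h2.congr_of_eventuallyEq ?_
      filter_upwards [isOpen_Ioi.mem_nhds (show lam a i x ∈ Ioi (1 : ℝ) from hl)] with s hs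
      have hs' : 1 < s := hs
      simp only [hφ, psi]
      rw [chs_one (by linarith), one_mul]
    have h4 : fderiv ℝ Φ x (x - a i) = 3 * ((lam a i x)⁻¹) ^ 4 * lam a i x := fd_lam ha i hder
    rw [h4, hval x hl]
    field_simp
    ring
  rw [e1, e2, setIntegral_const, smul_eq_mul] at h1
  rw [h1]
  ring

omit hσ hn hU in
/-- the cone part by a constant field -/
theorem vol_TC_K (i : Fin 4) (hσ : ∀ᵐ z ∂σ, z.1 ∈ K ∧ z.2 ∈ K) {n : ℕ∞} (hn : 1 ≤ n)
    (hU : ∀ G : E3 → E3, ContDiff ℝ n G → ∫ z, ⟪G z.1, z.1 - z.2⟫ ∂σ = ∫ x in K, dvg G x) :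
    ∫ z in {z | z.1 ∈ TC a i}, ⟪z.1 - a i, z.1 - z.2⟫ ∂σ = 3 * volume.real (K ∩ TC a i) := by
  have h1 := rad_flux ha hK hσ hn hU i (Φ := fun _ => 1) contDiff_const
  simp only [one_mul] at h1
  rw [h1]
  have h2 : ∀ x : E3, 3 * (1 : ℝ) + fderiv ℝ (fun _ : E3 => (1 : ℝ)) x (x - a i) = 3 := by
    intro x
    simp
  simp only [h2]
  rw [setIntegral_const, smul_eq_mul]
  ring

end

end Helper14.MEI3
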