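import Pool.Agent.Helper14.MEI3.Cyl
import Pool.Agent.Helper22.MEI.Sig

/-!
# Cones over planar sets: the limit of thin layers
-/

namespace Helper14.MEI3

open Set Metric MeasureTheory Filter Helper80.CW Helper82.CW Helper14.CW Helper22.Sig
open scoped Topology RealInnerProductSpace

variable {b : OrthonormalBasis (Fin 3) ℝ E3} {A : E3} {h : ℝ} {K : Set E3} {D : Set (ℝ × ℝ)}
  {F : E3 → ℝ}

/-- the integral over the slice at height `z` -/
noncomputable def slc (b : OrthonormalBasis (Fin 3) ℝ E3) (A : E3) (K : Set E3) (D : Set (ℝ × ℝ))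
    (F : E3 → ℝ) (z : ℝ) : ℝ := ∫ p in D, K.indicator F (A + z • Np b p)

theorem ind_bd (hK : IsCompact K) (hF : ContinuousOn F K) :
    ∃ C, 0 ≤ C ∧ ∀ x, |K.indicator F x| ≤ C := by
  obtain ⟨C, hC⟩ := hK.bddAbove_image (f := fun x => |F x|) hF.abs
  refine ⟨max C 0, le_max_right _ _, fun x => ?_⟩
  by_cases hx : x ∈ K
  · rw [indicator_of_mem hx]
    exact (hC ⟨x, hx, rfl⟩).trans (le_max_left _ _)
  · rw [indicator_of_notMem hx, abs_zero]
    exact le_max_right _ _

theorem ind_meas (hK : IsCompact K) (hF : Continuous F) : Measurable (K.indicator F) :=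
  hF.measurable.indicator hK.isClosed.measurableSet

theorem slc_cont (hK : IsCompact K) (hc : Convex ℝ K) (hh : 0 < h) {x0 : E3}
    (hx0 : x0 ∈ interior K) (hx : ⟪b 2, x0 - A⟫ = h) (hDf : volume D ≠ ⊤)
    (hF : Continuous F) : ContinuousAt (slc b A K D F) h := by
  obtain ⟨C, hC0, hC⟩ := ind_bd hK hF.continuousOn
  haveI : IsFiniteMeasure (volume.restrict D) := ⟨by
    rw [Measure.restrict_apply_univ]; exact hDf.lt_top⟩
  refine tendsto_integral_filter_of_dominated_convergence (fun _ => C)
    (Eventually.of_forall fun z => ?_) (Eventually.of_forall fun z => Eventually.of_forall fun p => ?_)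
    (integrable_const _) ?_
  · refine ((ind_meas hK hF).comp ?_).aestronglyMeasurable
    have := Np_cont b
    have h2 : Continuous (fun p : ℝ × ℝ => A + z • Np b p) := by fun_prop
    exact h2.measurable
  · exact hC _
  · have hnull : ∀ᵐ p : ℝ × ℝ, p ∉ frontier (Sec b A h K) := by
      rw [ae_iff]
      simpa using Sec_null (b := b) (A := A) (h := h) hc
    filter_upwards [ae_restrict_of_ae hnull] with p hp
    have hf := Sec_frontier hK.isClosed hc hh hx0 hx hp
    have h1 : ContinuousAt (K.indicator F) (A + h • Np b p) := by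
      by_cases hi : A + h • Np b p ∈ interior K
      · refine hF.continuousAt.congr ?_
        filter_upwards [isOpen_interior.mem_nhds hi] with y hy
        rw [indicator_of_mem (interior_subset hy)]
      · have hn : A + h • Np b p ∈ Kᶜ := by
          intro hmem
          exact hf ⟨subset_closure hmem, hi⟩
        have h0 : ContinuousAt (fun _ : E3 => (0 : ℝ)) (A + h • Np b p) := continuousAt_const
        refine h0.congr ?_
        filter_upwards [hK.isClosed.isOpen_compl.mem_nhds hn] with y hy
        rw [indicator_of_notMem hy]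
    have h2 : ContinuousAt (fun z : ℝ => A + z • Np b p) h := by fun_prop
    exact ContinuousAt.comp (g := K.indicator F) (f := fun z : ℝ => A + z • Np b p) h1 h2

theorem slc_meas (hK : IsCompact K) (hF : Continuous F) (hDf : volume D ≠ ⊤) :
    Measurable (slc b A K D F) := by
  haveI : IsFiniteMeasure (volume.restrict D) := ⟨by
    rw [Measure.restrict_apply_univ]; exact hDf.lt_top⟩
  have h1 : Measurable (fun q : ℝ × (ℝ × ℝ) => K.indicator F (A + q.1 • Np b q.2)) := by
    refine (ind_meas hK hF).comp ?_
    have := Np_cont b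
    have h2 : Continuous (fun q : ℝ × (ℝ × ℝ) => A + q.1 • Np b q.2) := by fun_prop
    exact h2.measurable
  exact (h1.stronglyMeasurable.integral_prod_right (ν := volume.restrict D)).measurable

theorem slc_bd (hK : IsCompact K) (hF : Continuous F) (hDf : volume D ≠ ⊤) :
    ∃ C, ∀ z, |slc b A K D F z| ≤ C := by
  obtain ⟨C, hC0, hC⟩ := ind_bd hK hF.continuousOn
  refine ⟨C * volume.real D, fun z => ?_⟩
  have := norm_setIntegral_le_of_norm_le_const (μ := volume) (s := D)
    (f := fun p => K.indicator F (A + z • Np b p)) (C := C) hDf.lt_top (fun p _ => hC _)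
  exact this

/-- the gauge -/
noncomputable def gau (b : OrthonormalBasis (Fin 3) ℝ E3) (A : E3) (h : ℝ) (x : E3) : ℝ :=
  ⟪b 2, x - A⟫ / h

theorem gau_cont (b : OrthonormalBasis (Fin 3) ℝ E3) (A : E3) (h : ℝ) : Continuous (gau b A h) := by
  unfold gau
  fun_prop

/-- integrals over the part of the body in the cone, in slices -/
theorem slice_int (hK : IsCompact K) (hF : Continuous F) (hD : MeasurableSet D) {k : ℝ → ℝ}
    (hk : Continuous k) :
    ∫ x in K ∩ {x | x - A ∈ cone b D}, F x * k (gau b A h x) =
      ∫ z in Ioi (0 : ℝ), z ^ 2 * (k (z / h) * slc b A K D F z) := by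
  have hm1 : MeasurableSet {x : E3 | x - A ∈ cone b D} := by
    have h1 : Measurable (fun x : E3 => x - A) := measurable_id.sub_const A
    exact h1 (cone_meas b hD)
  have hm : MeasurableSet (K ∩ {x | x - A ∈ cone b D}) := hK.isClosed.measurableSet.inter hm1
  rw [← integral_indicator hm]
  set g : E3 → ℝ := fun y => (K ∩ {x | x - A ∈ cone b D}).indicator
    (fun x => F x * k (gau b A h x)) (y + A) with hg
  have e1 : ∫ x, (K ∩ {x | x - A ∈ cone b D}).indicator (fun x => F x * k (gau b A h x)) x =
      ∫ y, g y := (integral_add_right_eq_self _ A).symm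
  have hcont : Continuous (fun x => F x * k (gau b A h x)) :=
    hF.mul (hk.comp (gau_cont b A h))
  have hint : Integrable g := by
    have h1 : IntegrableOn (fun x => F x * k (gau b A h x)) K :=
      hcont.continuousOn.integrableOn_compact hK
    have h2 : Integrable ((K ∩ {x | x - A ∈ cone b D}).indicator
        (fun x => F x * k (gau b A h x))) := by
      rw [integrable_indicator_iff hm]
      exact h1.mono_set inter_subset_left
    exact h2.comp_add_right A
  rw [e1, cyl_coords b hint]
  · refine setIntegral_congr_fun measurableSet_Ioi fun z hz => ?_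
    have hz0 : 0 < z := hz
    congr 1
    unfold slc
    rw [← integral_const_mul, ← integral_indicator hD]
    congr 1
    ext p
    simp only [hg]
    have e2 : z • pt b p.1 p.2 1 + A = A + z • Np b p := by
      unfold Np; rw [add_comm]
    have e3 : A + z • Np b p - A = z • Np b p := by abel
    have e4 : gau b A h (A + z • Np b p) = z / h := by
      unfold gau
      rw [e3, real_inner_smul_right, Np_inner, mul_one]
    rw [e2]
    by_cases hp : p ∈ D
    · rw [indicator_of_mem hp]
      by_cases hx : A + z • Np b p ∈ K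
      · rw [indicator_of_mem hx, indicator_of_mem, e4, mul_comm]
        refine ⟨hx, ?_⟩
        show A + z • Np b p - A ∈ cone b D
        rw [e3]
        exact (mem_cone_Np b hz0 p).2 hp
      · rw [indicator_of_notMem hx, indicator_of_notMem (fun h' => hx h'.1), mul_zero]
    · rw [indicator_of_notMem hp, indicator_of_notMem]
      rintro ⟨_, h'⟩
      have h'' : A + z • Np b p - A ∈ cone b D := h'
      rw [e3] at h''
      exact hp ((mem_cone_Np b hz0 p).1 h'')
  · intro x hx
    simp only [hg]
    apply indicator_of_notMem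
    rintro ⟨_, h'⟩
    have h'' : x + A - A ∈ cone b D := h'
    rw [add_sub_cancel_right] at h''
    exact absurd h''.1 (not_lt.2 hx)

theorem sd_cont : Continuous (deriv Real.smoothTransition) :=
  (Real.smoothTransition.contDiff (n := 1)).continuous_deriv le_rfl

theorem sd_int : ∫ t, deriv Real.smoothTransition t = 1 := by
  have h1 : ∫ t, deriv Real.smoothTransition t =
      ∫ t in Ioc (0 : ℝ) 1, deriv Real.smoothTransition t := by
    rw [← integral_indicator measurableSet_Ioc]
    congr 1
    ext t
    by_cases ht : t ∈ Ioc (0 : ℝ) 1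
    · rw [indicator_of_mem ht]
    · rw [indicator_of_notMem ht]
      rw [mem_Ioc, not_and_or, not_lt, not_le] at ht
      apply st_deriv_zero
      rcases ht with h | h
      · exact Or.inl h
      · exact Or.inr h.le
  rw [h1, ← intervalIntegral.integral_of_le zero_le_one,
    intervalIntegral.integral_deriv_eq_sub (fun x _ =>
      (Real.smoothTransition.contDiff (n := 1)).differentiable one_ne_zero x)
      (sd_cont.intervalIntegrable _ _),
    Real.smoothTransition.one_of_one_le le_rfl, Real.smoothTransition.zero_of_nonpos le_rfl,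
    sub_zero]

/-- **limit of thin layers in a cone** -/
theorem slab_lim (hK : IsCompact K) (hc : Convex ℝ K) (hh : 0 < h) {x0 : E3}
    (hx0 : x0 ∈ interior K) (hx : ⟪b 2, x0 - A⟫ = h) (hD : MeasurableSet D) (hDf : volume D ≠ ⊤)
    (hF : Continuous F) :
    Tendsto (fun m : ℕ => ∫ x in K ∩ {x | x - A ∈ cone b D}, F x * (gau b A h x *
      (((m : ℝ) + 1) * deriv Real.smoothTransition ((gau b A h x - 1) * (m + 1))))) atTop
      (𝓝 (h ^ 3 * slc b A K D F h)) := by
  set sd := deriv Real.smoothTransition with hsd
  have key : ∀ m : ℕ, ∫ x in K ∩ {x | x - A ∈ cone b D}, F x * (gau b A h x *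
      (((m : ℝ) + 1) * sd ((gau b A h x - 1) * (m + 1)))) =
      ∫ t, sd t * (h * (h + h / (m + 1) * t) ^ 2 * ((h + h / (m + 1) * t) / h) *
        slc b A K D F (h + h / (m + 1) * t)) := by
    intro m
    have hm : (0 : ℝ) < m + 1 := by positivity
    have hk : Continuous (fun r : ℝ => r * (((m : ℝ) + 1) * sd ((r - 1) * (m + 1)))) := by
      have := sd_cont
      fun_prop
    rw [slice_int (h := h) hK hF hD hk, ← integral_indicator measurableSet_Ioi]
    set ψ : ℝ → ℝ := fun z => (Ioi (0 : ℝ)).indicator (fun z => z ^ 2 * ((z / h * (((m : ℝ) + 1) *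
      sd ((z / h - 1) * (m + 1)))) * slc b A K D F z)) z with hψ
    have e1 : ∫ z, ψ z = (h / (m + 1)) * ∫ t, ψ (h + h / (m + 1) * t) := by
      have h1 : ∫ t, ψ (h + h / (m + 1) * t) = |(h / (m + 1))⁻¹| • ∫ y, ψ (h + y) :=
        Measure.integral_comp_mul_left (fun y => ψ (h + y)) (h / (m + 1))
      have h2 : ∫ y, ψ (h + y) = ∫ y, ψ y := integral_add_left_eq_self ψ h
      rw [h1, h2, smul_eq_mul, abs_of_pos (by positivity), ← mul_assoc,
        mul_inv_cancel₀ (by positivity), one_mul]
    rw [e1, ← integral_const_mul]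
    congr 1
    ext t
    simp only [hψ]
    have e2 : ((h + h / (m + 1) * t) / h - 1) * ((m : ℝ) + 1) = t := by
      field_simp
      ring
    by_cases ht : 0 < h + h / (m + 1) * t
    · rw [indicator_of_mem (show h + h / (m + 1) * t ∈ Ioi (0 : ℝ) from ht), e2]
      field_simp
    · rw [indicator_of_notMem (show h + h / (m + 1) * t ∉ Ioi (0 : ℝ) from ht)]
      have ht0 : t ≤ 0 := by
        by_contra hcon
        push Not at hcon
        exact ht (by positivity)
      rw [hsd, st_deriv_zero (Or.inl ht0)]
      ring
  simp only [key]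
  obtain ⟨C, hC⟩ := slc_bd (b := b) (A := A) (D := D) hK hF hDf
  obtain ⟨M, hM⟩ := st_deriv_bd
  have hM0 : 0 ≤ M := (abs_nonneg _).trans (hM 0)
  have hC0 : 0 ≤ C := (abs_nonneg _).trans (hC 0)
  have hlim : Tendsto (fun m : ℕ => ∫ t, sd t * (h * (h + h / (m + 1) * t) ^ 2 *
      ((h + h / (m + 1) * t) / h) * slc b A K D F (h + h / (m + 1) * t))) atTop
      (𝓝 (∫ t, sd t * (h ^ 3 * slc b A K D F h))) := by
    refine tendsto_integral_of_dominated_convergence
      (fun t => (Icc (0 : ℝ) 1).indicator (fun _ => M * (h * (2 * h) ^ 2 * 2 * C)) t)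
      (fun m => ?_) ?_ (fun m => Eventually.of_forall fun t => ?_)
      (Eventually.of_forall fun t => ?_)
    · refine Measurable.aestronglyMeasurable ?_
      have h1 : Measurable (fun t : ℝ => slc b A K D F (h + h / ((m : ℝ) + 1) * t)) :=
        (slc_meas hK hF hDf).comp (by fun_prop)
      have h2 : Measurable sd := sd_cont.measurable
      fun_prop
    · rw [integrable_indicator_iff measurableSet_Icc]
      exact integrableOn_const (by simp)
    · rw [Real.norm_eq_abs]
      by_cases ht : t ∈ Icc (0 : ℝ) 1
      · rw [indicator_of_mem ht, abs_mul]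
        have hm : (0 : ℝ) < m + 1 := by positivity
        have hle : h / ((m : ℝ) + 1) * t ≤ h := by
          have h1 : h / ((m : ℝ) + 1) ≤ h := div_le_self hh.le (by linarith [Nat.cast_nonneg (α := ℝ) m])
          calc h / ((m : ℝ) + 1) * t ≤ h / ((m : ℝ) + 1) * 1 :=
                mul_le_mul_of_nonneg_left ht.2 (by positivity)
            _ ≤ h := by rw [mul_one]; exact h1
        have hge : 0 ≤ h / ((m : ℝ) + 1) * t := mul_nonneg (by positivity) ht.1
        set z := h + h / ((m : ℝ) + 1) * t with hz
        have hz1 : h ≤ z := by linarith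
        have hz2 : z ≤ 2 * h := by linarith
        have hz0 : 0 ≤ z := by linarith
        refine mul_le_mul (hM t) ?_ (abs_nonneg _) hM0
        rw [abs_mul, abs_of_nonneg (by positivity : 0 ≤ h * z ^ 2 * (z / h))]
        refine mul_le_mul ?_ (hC z) (abs_nonneg _) (by positivity)
        have h3 : z / h ≤ 2 := by rw [div_le_iff₀ hh]; exact hz2
        have h4 : z ^ 2 ≤ (2 * h) ^ 2 := pow_le_pow_left₀ hz0 hz2 2
        have h5 : 0 ≤ z / h := by positivity
        calc h * z ^ 2 * (z / h) ≤ h * (2 * h) ^ 2 * (z / h) := by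
              apply mul_le_mul_of_nonneg_right _ h5
              exact mul_le_mul_of_nonneg_left h4 hh.le
          _ ≤ h * (2 * h) ^ 2 * 2 := mul_le_mul_of_nonneg_left h3 (by positivity)
      · rw [indicator_of_notMem ht]
        rw [mem_Icc, not_and_or, not_le, not_le] at ht
        rw [hsd, st_deriv_zero (by rcases ht with h' | h'; exact Or.inl h'.le; exact Or.inr h'.le)]
        simp
    · have hz : Tendsto (fun m : ℕ => h + h / ((m : ℝ) + 1) * t) atTop (𝓝 h) := by
        have h1 : Tendsto (fun m : ℕ => h / ((m : ℝ) + 1)) atTop (𝓝 0) :=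
          tendsto_const_div_atTop_nhds_zero_nat h |>.comp (tendsto_add_atTop_nat 1) |>.congr
            (fun m => by simp [Function.comp])
        have h2 := (h1.mul_const t).const_add h
        rwa [zero_mul, add_zero] at h2
      have hs := (slc_cont hK hc hh hx0 hx hDf hF).tendsto.comp hz
      have h3 : Tendsto (fun m : ℕ => sd t * (h * (h + h / (m + 1) * t) ^ 2 *
          ((h + h / (m + 1) * t) / h) * slc b A K D F (h + h / (m + 1) * t))) atTop
          (𝓝 (sd t * (h * h ^ 2 * (h / h) * slc b A K D F h))) :=
        ((((hz.pow 2).const_mul h).mul (hz.div_const h)).mul hs).const_mul (sd t)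
      have e : sd t * (h * h ^ 2 * (h / h) * slc b A K D F h) =
          sd t * (h ^ 3 * slc b A K D F h) := by
        rw [div_self hh.ne']
        ring
      rwa [e] at h3
  rwa [integral_mul_const, hsd, sd_int, one_mul] at hlim

end Helper14.MEI3
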