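import Pool.Agent.Helper14.MEI3.Rad
import Pool.Agent.Helper14.MEI3.Slab

/-!
# Integrals of homogeneous functions over the cones of the tetrahedron
-/

namespace Helper14.MEI3

open Set Metric MeasureTheory Filter Helper80.CW Helper82.CW Helper14.CW Helper14.MEI2
open Helper93.MEI Helper22.Sig
open scoped Topology RealInnerProductSpace

section
variable {b : OrthonormalBasis (Fin 3) ℝ E3} {A : E3} {h : ℝ} {D : Set (ℝ × ℝ)}

/-- integrals of products of a function of the gauge and a homogeneous function -/
theorem hom_int (hh : 0 < h) (hD : MeasurableSet D) {L : ℝ} (hDb : ∀ p ∈ D, ‖Np b p‖ ≤ L)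
    {f : E3 → ℝ} (hfm : Measurable f) (hfh : ∀ z : ℝ, 0 < z → ∀ v, f (A + z • v) = f (A + v))
    {C : ℝ} (hfb : ∀ x, x - A ∈ cone b D → |f x| ≤ C) {k : ℝ → ℝ} (hk : Measurable k) {M R : ℝ}
    (hkb : ∀ r, |k r| ≤ M) (hks : ∀ r, R < r → k r = 0) :
    ∫ x in {x | x - A ∈ cone b D}, k (gau b A h x) * f x =
      (∫ z in Ioi (0 : ℝ), z ^ 2 * k (z / h)) * ∫ p in D, f (A + Np b p) := by
  have hm1 : MeasurableSet {x : E3 | x - A ∈ cone b D} := by
    have h1 : Measurable (fun x : E3 => x - A) := measurable_id.sub_const A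
    exact h1 (cone_meas b hD)
  rw [← integral_indicator hm1]
  set g : E3 → ℝ := fun y => ({x | x - A ∈ cone b D}).indicator
    (fun x => k (gau b A h x) * f x) (y + A) with hg
  have e1 : ∫ x, ({x | x - A ∈ cone b D}).indicator (fun x => k (gau b A h x) * f x) x =
      ∫ y, g y := (integral_add_right_eq_self _ A).symm
  have hgm : Measurable (fun x => k (gau b A h x) * f x) :=
    (hk.comp (gau_cont b A h).measurable).mul hfm
  have hM0 : 0 ≤ M := (abs_nonneg _).trans (hkb 0)
  have hint : Integrable g := by
    have h2 : Integrable (({x | x - A ∈ cone b D}).indicator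
        (fun x => k (gau b A h x) * f x)) := by
      set B : ℝ := max (R * h * L) 0 with hB
      have h3 : ({x | x - A ∈ cone b D}).indicator (fun x => k (gau b A h x) * f x) =
          (closedBall A B).indicator (({x | x - A ∈ cone b D}).indicator
            (fun x => k (gau b A h x) * f x)) := by
        ext x
        by_cases hx : x ∈ closedBall A B
        · rw [indicator_of_mem hx]
        · rw [indicator_of_notMem hx]
          by_cases hc : x - A ∈ cone b D
          · rw [indicator_of_mem (show x ∈ {x | x - A ∈ cone b D} from hc)]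
            have h4 : R < gau b A h x := by
              by_contra hcon
              push Not at hcon
              apply hx
              have hz : 0 < ⟪b 2, x - A⟫ := hc.1
              have hp := hDb _ hc.2
              set p : ℝ × ℝ := (⟪b 0, x - A⟫ / ⟪b 2, x - A⟫, ⟪b 1, x - A⟫ / ⟪b 2, x - A⟫) with hpd
              have e2 : x - A = ⟪b 2, x - A⟫ • Np b p := by
                have e3 := pt_crd b (x - A)
                rw [crd_apply] at e3
                simp only at e3
                unfold Np
                rw [← pt_smul]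
                simp only [hpd, mul_one]
                rw [mul_div_cancel₀ _ hz.ne', mul_div_cancel₀ _ hz.ne', e3]
              rw [mem_closedBall, dist_eq_norm]
              have h5 : ⟪b 2, x - A⟫ ≤ R * h := by
                unfold gau at hcon
                rwa [div_le_iff₀ hh] at hcon
              have hL : 0 ≤ L := (norm_nonneg _).trans hp
              calc ‖x - A‖ = ⟪b 2, x - A⟫ * ‖Np b p‖ := by
                    nth_rewrite 1 [e2]
                    rw [norm_smul, Real.norm_of_nonneg hz.le]
                _ ≤ ⟪b 2, x - A⟫ * L := mul_le_mul_of_nonneg_left hp hz.le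
                _ ≤ R * h * L := mul_le_mul_of_nonneg_right h5 hL
                _ ≤ B := le_max_left _ _
            rw [hks _ h4, zero_mul]
          · rw [indicator_of_notMem (show x ∉ {x | x - A ∈ cone b D} from hc)]
      rw [h3, integrable_indicator_iff measurableSet_closedBall]
      refine Measure.integrableOn_of_bounded (M := M * |C|) measure_closedBall_lt_top.ne
        (hgm.indicator hm1).aestronglyMeasurable (Eventually.of_forall fun x => ?_)
      rw [Real.norm_eq_abs]
      by_cases hc : x - A ∈ cone b D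
      · rw [indicator_of_mem (show x ∈ {x | x - A ∈ cone b D} from hc), abs_mul]
        exact mul_le_mul (hkb _) ((hfb x hc).trans (le_abs_self C)) (abs_nonneg _) hM0
      · rw [indicator_of_notMem (show x ∉ {x | x - A ∈ cone b D} from hc), abs_zero]
        positivity
    exact h2.comp_add_right A
  rw [e1, cyl_coords b hint, ← integral_mul_const]
  · refine setIntegral_congr_fun measurableSet_Ioi fun z hz => ?_
    have hz0 : 0 < z := hz
    show z ^ 2 * ∫ p : ℝ × ℝ, g (z • pt b p.1 p.2 1) = z ^ 2 * k (z / h) * ∫ p in D, f (A + Np b p)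
    have e0 : k (z / h) * ∫ p in D, f (A + Np b p) = ∫ p in D, k (z / h) * f (A + Np b p) :=
      (integral_const_mul _ _).symm
    rw [mul_assoc, e0, ← integral_indicator hD]
    congr 2
    ext p
    simp only [hg]
    have e2 : z • pt b p.1 p.2 1 + A = A + z • Np b p := by
      unfold Np; rw [add_comm]
    have e3 : A + z • Np b p - A = z • Np b p := by abel
    have e4 : gau b A h (A + z • Np b p) = z / h := by
      unfold gau
      rw [e3, real_inner_smul_right, Np_inner, mul_one]
    rw [e2]
    by_cases hp : p ∈ D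
    · rw [indicator_of_mem hp, indicator_of_mem, e4, hfh z hz0]
      show A + z • Np b p - A ∈ cone b D
      rw [e3]
      exact (mem_cone_Np b hz0 p).2 hp
    · rw [indicator_of_notMem hp, indicator_of_notMem]
      intro h'
      have h'' : A + z • Np b p - A ∈ cone b D := h'
      rw [e3] at h''
      exact hp ((mem_cone_Np b hz0 p).1 h'')
  · intro x hx
    simp only [hg]
    apply indicator_of_notMem
    intro h'
    have h'' : x + A - A ∈ cone b D := h'
    rw [add_sub_cancel_right] at h''
    exact absurd h''.1 (not_lt.2 hx)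

end

theorem exists_frame {w : E3} (hw : ‖w‖ = 1) : ∃ b : OrthonormalBasis (Fin 3) ℝ E3, b 2 = w := by
  have hon : Orthonormal ℝ (({2} : Set (Fin 3)).restrict (fun _ => w)) := by
    refine ⟨fun _ => hw, fun i j hij => ?_⟩
    exact absurd (Subtype.ext ((mem_singleton_iff.1 i.2).trans (mem_singleton_iff.1 j.2).symm)) hij
  obtain ⟨b, hb⟩ := Orthonormal.exists_orthonormalBasis_extension_of_card_eq
    (𝕜 := ℝ) (E := E3) (ι := Fin 3) (by simp) (v := fun _ => w) (s := {2}) hon
  exact ⟨b, hb 2 (mem_singleton _)⟩

variable {a : Fin 4 → E3}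

/-- **a function of the gauge times a homogeneous function in the cone of the tetrahedron** -/
theorem TC_int (ha : ∀ i j, i ≠ j → dist (a i) (a j) = 1) (i : Fin 4) {f : E3 → ℝ}
    (hfm : Measurable f) (hfh : ∀ z : ℝ, 0 < z → ∀ v, f (a i + z • v) = f (a i + v)) {C : ℝ}
    (hfb : ∀ x ∈ TC a i, |f x| ≤ C) {k : ℝ → ℝ} (hk : Measurable k) {M R : ℝ}
    (hkb : ∀ r, |k r| ≤ M) (hks : ∀ r, R < r → k r = 0) :
    ∫ x in TC a i, k (lam a i x) * f x =
      3 * (∫ r in Ioi (0 : ℝ), r ^ 2 * k r) * ∫ x in T0 a, f x := by
  have g := gram_of_dist ha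
  have hn0 : 0 < ‖al a i‖ := by
    rw [norm_pos_iff]
    exact g.ne i
  obtain ⟨b, hb⟩ := exists_frame (w := -((‖al a i‖)⁻¹ • al a i)) (by
    rw [norm_neg, norm_smul, norm_inv, norm_norm, inv_mul_cancel₀ hn0.ne'])
  set h : ℝ := (2 * ‖al a i‖)⁻¹ with hhd
  have hh : 0 < h := by positivity
  have hgau : ∀ x, gau b (a i) h x = lam a i x := by
    intro x
    have h1 := bar_sub a i x (a i)
    rw [bar_vertex_self g] at h1
    unfold gau lam
    rw [hb, inner_neg_left, real_inner_smul_left, hhd]
    field_simp
    linarith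
  have hsc : ∀ (z : ℝ), 0 < z → ∀ v : E3, (a i + z • v ∈ TC a i ↔ a i + v ∈ TC a i) := by
    intro z hz v
    rw [TC_bar ha]
    have e : ∀ k, k ≠ i → bar a k (a i + z • v) = z * bar a k (a i + v) := by
      intro k hk
      have := bar_ray_ne ha hk z (a i + v)
      rwa [add_sub_cancel_left] at this
    constructor
    · intro h' k hk
      have h1 : 0 < bar a k (a i + z • v) := h' k hk
      rw [e k hk] at h1
      exact (mul_pos_iff_of_pos_left hz).1 h1
    · intro h' k hk
      have h1 : 0 < bar a k (a i + v) := h' k hk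
      show 0 < bar a k (a i + z • v)
      rw [e k hk]
      exact mul_pos hz h1
  set D : Set (ℝ × ℝ) := {p | a i + Np b p ∈ TC a i} with hDd
  have hD : MeasurableSet D := by
    have hc : Continuous (fun p : ℝ × ℝ => a i + Np b p) := by
      have := Np_cont b
      fun_prop
    exact ((TC_open ha i).preimage hc).measurableSet
  have hDb : ∀ p ∈ D, ‖Np b p‖ ≤ h⁻¹ := by
    intro p hp
    have h1 := norm_le_lam ha (show a i + Np b p ∈ TC a i from hp)
    rw [add_sub_cancel_left] at h1
    rw [← hgau] at h1
    unfold gau at h1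
    rwa [add_sub_cancel_left, Np_inner, one_div] at h1
  have hset : {x : E3 | x - a i ∈ cone b D} = TC a i := by
    ext x
    have key : ∀ hz : 0 < ⟪b 2, x - a i⟫,
        x = a i + ⟪b 2, x - a i⟫ • Np b (⟪b 0, x - a i⟫ / ⟪b 2, x - a i⟫,
          ⟪b 1, x - a i⟫ / ⟪b 2, x - a i⟫) := by
      intro hz
      have e3 := pt_crd b (x - a i)
      rw [crd_apply] at e3
      simp only at e3
      unfold Np
      rw [← pt_smul]
      simp only [mul_one]
      rw [mul_div_cancel₀ _ hz.ne', mul_div_cancel₀ _ hz.ne', e3]
      abel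
    constructor
    · intro hx
      have hx' : x - a i ∈ cone b D := hx
      have h1 : a i + Np b (⟪b 0, x - a i⟫ / ⟪b 2, x - a i⟫,
          ⟪b 1, x - a i⟫ / ⟪b 2, x - a i⟫) ∈ TC a i := hx'.2
      rw [key hx'.1]
      exact (hsc _ hx'.1 _).2 h1
    · intro hx
      have hl := lam_pos ha hx
      rw [← hgau] at hl
      unfold gau at hl
      have hz : 0 < ⟪b 2, x - a i⟫ := by
        by_contra hcon
        push Not at hcon
        exact absurd hl (not_lt.2 (div_nonpos_of_nonpos_of_nonneg hcon hh.le))
      show x - a i ∈ cone b D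
      refine ⟨hz, ?_⟩
      show a i + Np b (⟪b 0, x - a i⟫ / ⟪b 2, x - a i⟫,
          ⟪b 1, x - a i⟫ / ⟪b 2, x - a i⟫) ∈ TC a i
      rw [key hz] at hx
      exact (hsc _ hz _).1 hx
  have hfb' : ∀ x, x - a i ∈ cone b D → |f x| ≤ C := by
    intro x hx
    apply hfb
    rw [← hset]
    exact hx
  have h1 := hom_int hh hD hDb hfm hfh hfb' hk hkb hks
  rw [hset] at h1
  simp only [hgau] at h1
  -- the tetrahedron
  set k1 : ℝ → ℝ := (Iio (1 : ℝ)).indicator (fun _ => 1) with hk1
  have hk1m : Measurable k1 := measurable_const.indicator measurableSet_Iio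
  have h2 := hom_int (M := 1) (R := 1) hh hD hDb hfm hfh hfb' hk1m (by
    intro r
    simp only [hk1]
    by_cases hr : r ∈ Iio (1 : ℝ)
    · rw [indicator_of_mem hr]; simp
    · rw [indicator_of_notMem hr]; simp) (by
    intro r hr
    simp only [hk1]
    exact indicator_of_notMem (by simp [hr.le]) _)
  rw [hset] at h2
  simp only [hgau] at h2
  have h3 : ∫ x in TC a i, k1 (lam a i x) * f x = ∫ x in T0 a, f x := by
    have e1 : T0 a = TC a i ∩ {x | lam a i x < 1} := by
      rw [TC_bar ha]
      ext x
      constructor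
      · intro hx
        refine ⟨fun k _ => hx k, ?_⟩
        have := hx i
        show 1 - bar a i x < 1
        linarith
      · rintro ⟨hx1, hx2⟩ k
        by_cases hki : k = i
        · have h4 : 1 - bar a i x < 1 := hx2
          rw [hki]
          linarith
        · exact hx1 k hki
    have hmeas : MeasurableSet {x : E3 | lam a i x < 1} :=
      (isOpen_lt (lam_cont a i) continuous_const).measurableSet
    rw [e1, ← setIntegral_indicator hmeas]
    refine setIntegral_congr_fun (TC_open ha i).measurableSet fun x _ => ?_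
    simp only [hk1]
    by_cases hx : lam a i x < 1
    · rw [indicator_of_mem (show lam a i x ∈ Iio (1 : ℝ) from hx),
        indicator_of_mem (show x ∈ {x : E3 | lam a i x < 1} from hx), one_mul]
    · rw [indicator_of_notMem (show lam a i x ∉ Iio (1 : ℝ) from hx),
        indicator_of_notMem (show x ∉ {x : E3 | lam a i x < 1} from hx), zero_mul]
  have h4 : ∫ z in Ioi (0 : ℝ), z ^ 2 * k1 (z / h) = h ^ 3 / 3 := by
    have e1 : ∫ z in Ioi (0 : ℝ), z ^ 2 * k1 (z / h) = ∫ z in Ioo (0 : ℝ) h, z ^ 2 := by
      rw [← integral_indicator measurableSet_Ioi, ← integral_indicator measurableSet_Ioo]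
      congr 1
      ext z
      by_cases hz : z ∈ Ioo (0 : ℝ) h
      · have hz1 : z / h ∈ Iio (1 : ℝ) := by
          show z / h < 1
          rw [div_lt_one hh]; exact hz.2
        rw [indicator_of_mem (show z ∈ Ioi (0 : ℝ) from hz.1), indicator_of_mem hz]
        simp only [hk1]
        rw [indicator_of_mem hz1, mul_one]
      · rw [indicator_of_notMem hz]
        by_cases hz0 : z ∈ Ioi (0 : ℝ)
        · rw [indicator_of_mem hz0]
          have hz1 : z / h ∉ Iio (1 : ℝ) := by
            intro h'
            have h'' : z / h < 1 := h'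
            rw [div_lt_one hh] at h''
            exact hz ⟨hz0, h''⟩
          simp only [hk1]
          rw [indicator_of_notMem hz1, mul_zero]
        · rw [indicator_of_notMem hz0]
    rw [e1, ← integral_Ioc_eq_integral_Ioo, ← intervalIntegral.integral_of_le hh.le, integral_pow]
    norm_num
  have h5 : ∫ z in Ioi (0 : ℝ), z ^ 2 * k (z / h) = h ^ 3 * ∫ r in Ioi (0 : ℝ), r ^ 2 * k r := by
    have e1 := integral_comp_mul_left_Ioi (fun z : ℝ => z ^ 2 * k (z / h)) 0 hh
    rw [mul_zero, smul_eq_mul] at e1
    have e2 : ∀ r : ℝ, (h * r) ^ 2 * k (h * r / h) = h ^ 2 * (r ^ 2 * k r) := by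
      intro r
      rw [mul_div_cancel_left₀ _ hh.ne']
      ring
    simp only [e2] at e1
    rw [integral_const_mul] at e1
    have e3 : ∫ z in Ioi (0 : ℝ), z ^ 2 * k (z / h) =
        h * (h⁻¹ * ∫ z in Ioi (0 : ℝ), z ^ 2 * k (z / h)) := by
      rw [← mul_assoc, mul_inv_cancel₀ hh.ne', one_mul]
    rw [e3, ← e1]
    ring
  rw [h3, h4] at h2
  rw [h1, h5, h2]
  field_simp

end Helper14.MEI3
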