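import Pool.Agent.Helper14.MEI3.Rad

/-!
# The layer of the cones inside the tetrahedron lies in the body
-/

namespace Helper14.MEI3

open Set Metric Helper80.CW Helper82.CW Helper14.CW Helper14.MEI2 Helper93.MEI
open scoped RealInnerProductSpace

variable {a : Fin 4 → E3}

/-- distance of two points by the functions `Q` -/
theorem dist_Q (g : Gram4 (al a)) (x q : E3) : ‖x - q‖ ^ 2 = 1 +
    (bar a 0 x * Qv a 0 q + bar a 1 x * Qv a 1 q + bar a 2 x * Qv a 2 q + bar a 3 x * Qv a 3 q) -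
    (bar a 0 x * bar a 1 x + bar a 0 x * bar a 2 x + bar a 0 x * bar a 3 x +
      bar a 1 x * bar a 2 x + bar a 1 x * bar a 3 x + bar a 2 x * bar a 3 x) := by
  have hs := bar_sum g x
  rw [norm_sub_sq_bar g, Qv_eq g, Qv_eq g, Qv_eq g, Qv_eq g]
  have e : bar a 3 x = 1 - bar a 0 x - bar a 1 x - bar a 2 x := by linarith
  rw [e]
  ring

/-- **the layer `1/2 ≤ lam ≤ 3/4` lies in the body** if all `Q` are at most `3/16` on the body -/
theorem layer_sub (ha : ∀ i j, i ≠ j → dist (a i) (a j) = 1) {K : Set E3}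
    (hull : ∀ p : E3, (∀ q ∈ K, ‖p - q‖ ≤ 1) → p ∈ K) {s : ℝ} (hs : s ≤ 3 / 16)
    (hQ : ∀ i, ∀ q ∈ K, Qv a i q ≤ s) (i : Fin 4) :
    ∀ x ∈ TC a i, 1 / 2 ≤ lam a i x → lam a i x ≤ 3 / 4 → x ∈ K := by
  intro x hx h1 h2
  have g := gram_of_dist ha
  have hx' := hx
  rw [TC_bar ha] at hx'
  have h : ∀ k, k ≠ i → 0 < bar a k x := hx'
  have hsum := bar_sum g x
  unfold lam at h1 h2
  refine hull x fun q hq => ?_
  have hd := dist_Q g x q
  have q0 := hQ 0 q hq
  have q1 := hQ 1 q hq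
  have q2 := hQ 2 q hq
  have q3 := hQ 3 q hq
  have hle : ‖x - q‖ ^ 2 ≤ 1 := by
    rw [hd]
    have key : ∀ b0 b1 b2 b3 : ℝ, 0 < b0 → 0 < b1 → 0 < b2 → 0 < b3 → b0 + b1 + b2 + b3 = 1 →
        b0 * Qv a 0 q + b1 * Qv a 1 q + b2 * Qv a 2 q + b3 * Qv a 3 q ≤ s := by
      intro b0 b1 b2 b3 p0 p1 p2 p3 hb
      have e : s = b0 * s + b1 * s + b2 * s + b3 * s := by rw [← add_mul, ← add_mul, ← add_mul, hb, one_mul]
      rw [e]
      have m0 := mul_le_mul_of_nonneg_left q0 p0.le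
      have m1 := mul_le_mul_of_nonneg_left q1 p1.le
      have m2 := mul_le_mul_of_nonneg_left q2 p2.le
      have m3 := mul_le_mul_of_nonneg_left q3 p3.le
      linarith
    fin_cases i
    · have h1' : 1 / 2 ≤ 1 - bar a 0 x := h1
      have h2' : 1 - bar a 0 x ≤ 3 / 4 := h2
      have p1 := h 1 (by decide)
      have p2 := h 2 (by decide)
      have p3 := h 3 (by decide)
      have hk := key _ _ _ _ (by linarith) p1 p2 p3 hsum
      have e : bar a 1 x + bar a 2 x + bar a 3 x = 1 - bar a 0 x := by linarith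
      nlinarith [mul_pos p1 p2, mul_pos p1 p3, mul_pos p2 p3]
    · have h1' : 1 / 2 ≤ 1 - bar a 1 x := h1
      have h2' : 1 - bar a 1 x ≤ 3 / 4 := h2
      have p1 := h 0 (by decide)
      have p2 := h 2 (by decide)
      have p3 := h 3 (by decide)
      have hk := key _ _ _ _ p1 (by linarith) p2 p3 hsum
      have e : bar a 0 x + bar a 2 x + bar a 3 x = 1 - bar a 1 x := by linarith
      nlinarith [mul_pos p1 p2, mul_pos p1 p3, mul_pos p2 p3]
    · have h1' : 1 / 2 ≤ 1 - bar a 2 x := h1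
      have h2' : 1 - bar a 2 x ≤ 3 / 4 := h2
      have p1 := h 0 (by decide)
      have p2 := h 1 (by decide)
      have p3 := h 3 (by decide)
      have hk := key _ _ _ _ p1 p2 (by linarith) p3 hsum
      have e : bar a 0 x + bar a 1 x + bar a 3 x = 1 - bar a 2 x := by linarith
      nlinarith [mul_pos p1 p2, mul_pos p1 p3, mul_pos p2 p3]
    · have h1' : 1 / 2 ≤ 1 - bar a 3 x := h1
      have h2' : 1 - bar a 3 x ≤ 3 / 4 := h2
      have p1 := h 0 (by decide)
      have p2 := h 1 (by decide)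
      have p3 := h 2 (by decide)
      have hk := key _ _ _ _ p1 p2 p3 (by linarith) hsum
      have e : bar a 0 x + bar a 1 x + bar a 2 x = 1 - bar a 3 x := by linarith
      nlinarith [mul_pos p1 p2, mul_pos p1 p3, mul_pos p2 p3]
  nlinarith [norm_nonneg (x - q)]

end Helper14.MEI3
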