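import Pool.Agent.Helper14.MEI3.FF

/-!
# Solid angle integrals in terms of the pair measure
-/

namespace Helper14.MEI3

open Set Metric MeasureTheory Filter Helper80.CW Helper82.CW Helper14.CW Helper14.MEI2
open Helper93.MEI Helper22.Sig
open scoped Topology RealInnerProductSpace

variable {a : Fin 4 → E3}

/-- the homogeneous coordinates -/
noncomputable def tt (a : Fin 4 → E3) (i j k : Fin 4) (x : E3) : ℝ × ℝ :=
  (bar a j x / lam a i x, bar a k x / lam a i x)

/-- smooth version, equal to `tt` for `lam ≥ 3/8` -/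
noncomputable def ts (a : Fin 4 → E3) (i j k : Fin 4) (x : E3) : ℝ × ℝ :=
  (bar a j x * xi (lam a i x), bar a k x * xi (lam a i x))

theorem ts_cd (i j k : Fin 4) {n : ℕ∞} : ContDiff ℝ n (ts a i j k) := by
  have h1 : ContDiff ℝ n (fun x => xi (lam a i x)) := xi_cd.comp (lam_cd a i)
  exact ((bar_cd a j).mul h1).prodMk ((bar_cd a k).mul h1)

theorem ts_eq {i j k : Fin 4} {x : E3} (h : 3 / 8 ≤ lam a i x) : ts a i j k x = tt a i j k x := by
  unfold ts tt
  rw [xi_eq h, div_eq_mul_inv, div_eq_mul_inv]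

theorem tt_meas (i j k : Fin 4) : Measurable (tt a i j k) :=
  (((bar_cont a j).measurable).div (lam_cont a i).measurable).prodMk
    (((bar_cont a k).measurable).div (lam_cont a i).measurable)

section
variable (ha : ∀ i j, i ≠ j → dist (a i) (a j) = 1)
include ha

theorem tt_ray {i j k : Fin 4} (hj : j ≠ i) (hk : k ≠ i) {s : ℝ} (hs : s ≠ 0) (x : E3) :
    tt a i j k (a i + s • (x - a i)) = tt a i j k x := by
  unfold tt
  rw [bar_ray_ne ha hj, bar_ray_ne ha hk, lam_ray ha, mul_div_mul_left _ _ hs,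
    mul_div_mul_left _ _ hs]

theorem tt_mem {i j k : Fin 4} (hj : j ≠ i) (hk : k ≠ i) {x : E3} (hx : x ∈ TC a i) :
    tt a i j k x ∈ Icc (0 : ℝ) 1 ×ˢ Icc (0 : ℝ) 1 := by
  have hl := lam_pos ha hx
  have hx' := hx
  rw [TC_bar ha] at hx'
  have h : ∀ k, k ≠ i → 0 < bar a k x := hx'
  have g := gram_of_dist ha
  have hs := bar_sum g x
  have hb : ∀ m, m ≠ i → bar a m x ≤ lam a i x := by
    intro m hm
    unfold lam
    have h0 : ∀ m, m ≠ i → 0 ≤ bar a m x := fun m hm => (h m hm).le
    fin_cases i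
    · have h1 := h0 1 (by decide)
      have h2 := h0 2 (by decide)
      have h3 := h0 3 (by decide)
      show bar a m x ≤ 1 - bar a 0 x
      fin_cases m
      · exact absurd rfl hm
      · show bar a 1 x ≤ 1 - bar a 0 x; linarith
      · show bar a 2 x ≤ 1 - bar a 0 x; linarith
      · show bar a 3 x ≤ 1 - bar a 0 x; linarith
    · have h1 := h0 0 (by decide)
      have h2 := h0 2 (by decide)
      have h3 := h0 3 (by decide)
      show bar a m x ≤ 1 - bar a 1 x
      fin_cases m
      · show bar a 0 x ≤ 1 - bar a 1 x; linarith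
      · exact absurd rfl hm
      · show bar a 2 x ≤ 1 - bar a 1 x; linarith
      · show bar a 3 x ≤ 1 - bar a 1 x; linarith
    · have h1 := h0 0 (by decide)
      have h2 := h0 1 (by decide)
      have h3 := h0 3 (by decide)
      show bar a m x ≤ 1 - bar a 2 x
      fin_cases m
      · show bar a 0 x ≤ 1 - bar a 2 x; linarith
      · show bar a 1 x ≤ 1 - bar a 2 x; linarith
      · exact absurd rfl hm
      · show bar a 3 x ≤ 1 - bar a 2 x; linarith
    · have h1 := h0 0 (by decide)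
      have h2 := h0 1 (by decide)
      have h3 := h0 2 (by decide)
      show bar a m x ≤ 1 - bar a 3 x
      fin_cases m
      · show bar a 0 x ≤ 1 - bar a 3 x; linarith
      · show bar a 1 x ≤ 1 - bar a 3 x; linarith
      · show bar a 2 x ≤ 1 - bar a 3 x; linarith
      · exact absurd rfl hm
  refine ⟨⟨div_nonneg (h j hj).le hl.le, ?_⟩, ⟨div_nonneg (h k hk).le hl.le, ?_⟩⟩
  · show bar a j x / lam a i x ≤ 1
    rw [div_le_one hl]; exact hb j hj
  · show bar a k x / lam a i x ≤ 1
    rw [div_le_one hl]; exact hb k hk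

omit ha in
theorem h_bd {h : ℝ × ℝ → ℝ} (hh : Continuous h) :
    ∃ C, ∀ t ∈ Icc (0 : ℝ) 1 ×ˢ Icc (0 : ℝ) 1, |h t| ≤ C := by
  obtain ⟨C, hC⟩ := ((isCompact_Icc (a := (0 : ℝ)) (b := 1)).prod
    (isCompact_Icc (a := (0 : ℝ)) (b := 1))).bddAbove_image hh.abs.continuousOn
  exact ⟨C, fun t ht => hC ⟨t, ht, rfl⟩⟩

omit ha in
/-- the kernel of the layer -/
noncomputable def kap (r : ℝ) : ℝ := (r⁻¹) ^ 2 * (4 * deriv Real.smoothTransition (4 * r - 2))

omit ha in
theorem kap_zero {r : ℝ} (h : r ≤ 1 / 2 ∨ 3 / 4 ≤ r) : kap r = 0 := by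
  unfold kap
  rw [st_deriv_zero (by rcases h with h | h; exact Or.inl (by linarith); exact Or.inr (by linarith))]
  ring

omit ha in
theorem kap_bd : ∃ M, ∀ r, |kap r| ≤ M := by
  obtain ⟨M, hM⟩ := st_deriv_bd
  have hM0 : 0 ≤ M := (abs_nonneg _).trans (hM 0)
  refine ⟨4 * (4 * M), fun r => ?_⟩
  by_cases h : r ≤ 1 / 2
  · rw [kap_zero (Or.inl h), abs_zero]
    positivity
  · push Not at h
    unfold kap
    rw [abs_mul, abs_mul]
    have h1 : |(r⁻¹) ^ 2| ≤ 4 := by
      rw [abs_of_nonneg (by positivity)]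
      have h2 : r⁻¹ ≤ 2 := by
        rw [inv_le_comm₀ (by linarith) (by norm_num)]
        linarith
      have h3 : 0 ≤ r⁻¹ := by positivity
      nlinarith
    refine mul_le_mul h1 ?_ (by positivity) (by norm_num)
    rw [abs_of_nonneg (by norm_num : (0 : ℝ) ≤ 4)]
    exact mul_le_mul_of_nonneg_left (hM _) (by norm_num)

omit ha in
theorem kap_int : ∫ r in Ioi (0 : ℝ), r ^ 2 * kap r = 1 := by
  have e1 : ∫ r in Ioi (0 : ℝ), r ^ 2 * kap r =
      ∫ r, 4 * deriv Real.smoothTransition (4 * r - 2) := by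
    rw [← integral_indicator measurableSet_Ioi]
    congr 1
    ext r
    by_cases hr : r ∈ Ioi (0 : ℝ)
    · rw [indicator_of_mem hr]
      have hr0 : r ≠ 0 := ne_of_gt hr
      unfold kap
      field_simp
    · rw [indicator_of_notMem hr]
      have hr' : r ≤ 0 := not_lt.1 hr
      rw [st_deriv_zero (Or.inl (by linarith))]
      ring
  rw [e1, integral_const_mul]
  have e2 : ∫ r : ℝ, deriv Real.smoothTransition (4 * r - 2) =
      |(4 : ℝ)⁻¹| • ∫ y : ℝ, deriv Real.smoothTransition (y - 2) :=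
    Measure.integral_comp_mul_left (fun y => deriv Real.smoothTransition (y - 2)) 4
  have e3 : ∫ y : ℝ, deriv Real.smoothTransition (y - 2) = ∫ y, deriv Real.smoothTransition y :=
    integral_sub_right_eq_self (fun y => deriv Real.smoothTransition y) 2
  rw [e2, e3, sd_int, smul_eq_mul, abs_of_pos (by norm_num : (0 : ℝ) < 4⁻¹)]
  norm_num

/-- the volume side -/
theorem kap_TC {h : ℝ × ℝ → ℝ} (hh : Continuous h) {i j k : Fin 4} (hj : j ≠ i) (hk : k ≠ i) :
    ∫ x in TC a i, kap (lam a i x) * h (tt a i j k x) = 3 * ∫ x in T0 a, h (tt a i j k x) := by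
  obtain ⟨C, hC⟩ := h_bd hh
  obtain ⟨M, hM⟩ := kap_bd
  have hkm : Measurable kap := by
    have h1 : Measurable (fun r : ℝ => (r⁻¹) ^ 2) := measurable_inv.pow_const 2
    have h2 : Measurable (fun r : ℝ => 4 * deriv Real.smoothTransition (4 * r - 2)) := by
      have := sd_cont
      have h3 : Continuous (fun r : ℝ => 4 * deriv Real.smoothTransition (4 * r - 2)) := by fun_prop
      exact h3.measurable
    exact h1.mul h2
  have h1 := TC_int ha i (f := fun x => h (tt a i j k x)) (hh.measurable.comp (tt_meas i j k))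
    (by
      intro z hz v
      have := tt_ray ha hj hk hz.ne' (a i + v)
      rw [add_sub_cancel_left] at this
      simp only [this]) (C := C) (fun x hx => hC _ (tt_mem ha hj hk hx)) hkm hM (R := 3 / 4)
    (fun r hr => kap_zero (Or.inr hr.le))
  rw [h1, kap_int, mul_one]

variable {σ : Measure (E3 × E3)} [IsFiniteMeasure σ] {K : Set E3} (hK : IsCompact K)
    (hσ : ∀ᵐ z ∂σ, z.1 ∈ K ∧ z.2 ∈ K) {n : ℕ∞} (hn : 1 ≤ n)
    (hU : ∀ G : E3 → E3, ContDiff ℝ n G → ∫ z, ⟪G z.1, z.1 - z.2⟫ ∂σ = ∫ x in K, dvg G x)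
include hK hσ hn hU

theorem RAD_smooth {h : ℝ × ℝ → ℝ} (hh : ContDiff ℝ n h) {i j k : Fin 4} (hj : j ≠ i) (hk : k ≠ i)
    (hlay : ∀ x ∈ TC a i, 1 / 2 ≤ lam a i x → lam a i x ≤ 3 / 4 → x ∈ K) :
    ∫ z in {z | z.1 ∈ TC a i}, psi 3 (lam a i z.1) * h (tt a i j k z.1) *
      ⟪z.1 - a i, z.1 - z.2⟫ ∂σ = 3 * ∫ x in T0 a, h (tt a i j k x) := by
  set H : E3 → ℝ := fun x => h (ts a i j k x) with hH
  have hHc : ContDiff ℝ n H := hh.comp (ts_cd i j k)
  set Φ : E3 → ℝ := fun x => psi 3 (lam a i x) * H x with hΦ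
  have hPc : ContDiff ℝ n (fun x => psi 3 (lam a i x)) := (psi_cd 3).comp (lam_cd a i)
  have hΦc : ContDiff ℝ n Φ := hPc.mul hHc
  have h1 := rad_flux ha hK hσ hn hU i hΦc
  have hEq : ∀ x, Φ x = psi 3 (lam a i x) * h (tt a i j k x) := by
    intro x
    simp only [hΦ, hH]
    by_cases hx : lam a i x ≤ 1 / 2
    · rw [psi_zero 3 hx, zero_mul, zero_mul]
    · push Not at hx
      rw [ts_eq (by linarith)]
  simp only [hEq] at h1
  rw [h1, ← kap_TC ha hh.continuous hj hk]
  -- pointwise value of the divergence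
  have hdiv : ∀ x ∈ TC a i, 3 * (psi 3 (lam a i x) * h (tt a i j k x)) +
      fderiv ℝ Φ x (x - a i) = kap (lam a i x) * h (tt a i j k x) := by
    intro x hx
    have hl := lam_pos ha hx
    have hd1 : DifferentiableAt ℝ (fun x => psi 3 (lam a i x)) x :=
      hPc.differentiable (cd_ne hn) x
    have hd2 : DifferentiableAt ℝ H x := hHc.differentiable (cd_ne hn) x
    have hd := (hd1.hasFDerivAt.mul hd2.hasFDerivAt).fderiv
    have hd' : fderiv ℝ Φ x = psi 3 (lam a i x) • fderiv ℝ H x +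
      H x • fderiv ℝ (fun x => psi 3 (lam a i x)) x := hd
    rw [hd']
    simp only [ContinuousLinearMap.add_apply, ContinuousLinearMap.smul_apply, smul_eq_mul]
    have hr : HasDerivAt (psi 3) (4 * deriv Real.smoothTransition (4 * lam a i x - 2) *
        ((lam a i x)⁻¹) ^ 3 + chs (lam a i x) * (-(3 * ((lam a i x)⁻¹) ^ 4))) (lam a i x) := by
      have h2 := (chs_deriv (lam a i x)).mul ((hasDerivAt_inv hl.ne').pow 3)
      refine h2.congr_deriv ?_
      simp only [Pi.pow_apply, Nat.cast_ofNat, Nat.reduceSub]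
      ring
    have h3 := fd_lam ha i hr
    have h3' : fderiv ℝ (fun x => psi 3 (lam a i x)) x (x - a i) =
        (4 * deriv Real.smoothTransition (4 * lam a i x - 2) *
        ((lam a i x)⁻¹) ^ 3 + chs (lam a i x) * (-(3 * ((lam a i x)⁻¹) ^ 4))) * lam a i x := h3
    rw [h3']
    have h4 : psi 3 (lam a i x) * fderiv ℝ H x (x - a i) = 0 := by
      by_cases hx2 : lam a i x ≤ 1 / 2
      · rw [psi_zero 3 hx2, zero_mul]
      · push Not at hx2
        have h5 : fderiv ℝ H x (x - a i) = 0 := by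
          refine fd_ray hd2 ?_
          have hcont : Tendsto (fun s : ℝ => s * lam a i x) (𝓝 1) (𝓝 (1 * lam a i x)) :=
            (continuous_id.mul continuous_const).tendsto 1
          rw [one_mul] at hcont
          have h6 := hcont.eventually (isOpen_Ioi.mem_nhds
            (show lam a i x ∈ Ioi (1 / 2 : ℝ) from hx2))
          have h7 : ∀ᶠ s : ℝ in 𝓝 1, s ≠ 0 := isOpen_ne.mem_nhds one_ne_zero
          filter_upwards [h6, h7] with s hs hs0
          simp only [hH]
          have h8 : 1 / 2 < lam a i (a i + s • (x - a i)) := by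
            rw [lam_ray ha]; exact hs
          rw [ts_eq (by linarith), ts_eq (by linarith), tt_ray ha hj hk hs0]
        rw [h5, mul_zero]
    rw [h4]
    have hx3 : H x = h (tt a i j k x) ∨ lam a i x < 3 / 8 := by
      by_cases h5 : 3 / 8 ≤ lam a i x
      · left
        simp only [hH]
        rw [ts_eq h5]
      · right
        push Not at h5
        exact h5
    rcases hx3 with h5 | h5
    · rw [h5]
      unfold psi kap
      have hl0 : lam a i x ≠ 0 := hl.ne'
      field_simp
      ring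
    · rw [kap_zero (Or.inl (by linarith)), psi_zero 3 (by linarith),
        st_deriv_zero (Or.inl (by linarith)), chs_zero (by linarith)]
      ring
  have hmT : MeasurableSet (TC a i) := (TC_open ha i).measurableSet
  have e1 : ∫ x in K ∩ TC a i, (3 * (psi 3 (lam a i x) * h (tt a i j k x)) +
      fderiv ℝ Φ x (x - a i)) =
      ∫ x in K ∩ TC a i, kap (lam a i x) * h (tt a i j k x) :=
    setIntegral_congr_fun (hK.isClosed.measurableSet.inter hmT) fun x hx => hdiv x hx.2
  rw [e1]
  have e2 : ∫ x in TC a i, kap (lam a i x) * h (tt a i j k x) =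
      ∫ x in TC a i, K.indicator (fun x => kap (lam a i x) * h (tt a i j k x)) x := by
    refine setIntegral_congr_fun hmT fun x hx => ?_
    by_cases hxK : x ∈ K
    · rw [indicator_of_mem hxK]
    · rw [indicator_of_notMem hxK]
      have h6 : lam a i x ≤ 1 / 2 ∨ 3 / 4 ≤ lam a i x := by
        by_contra hcon
        push Not at hcon
        exact hxK (hlay x hx hcon.1.le hcon.2.le)
      rw [kap_zero h6, zero_mul]
  rw [e2, setIntegral_indicator hK.isClosed.measurableSet, inter_comm]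

/-- **solid angle integrals**: `psi 3 r = r⁻¹ ^ 3` for `r ≥ 3/4`, and `0` for `r ≤ 1/2` -/
theorem RAD {h : ℝ × ℝ → ℝ} (hh : Continuous h) {i j k : Fin 4} (hj : j ≠ i) (hk : k ≠ i)
    (hlay : ∀ x ∈ TC a i, 1 / 2 ≤ lam a i x → lam a i x ≤ 3 / 4 → x ∈ K) :
    ∫ z in {z | z.1 ∈ TC a i}, psi 3 (lam a i z.1) * h (tt a i j k z.1) *
      ⟪z.1 - a i, z.1 - z.2⟫ ∂σ = 3 * ∫ x in T0 a, h (tt a i j k x) := by
  have hmT : MeasurableSet {z : E3 × E3 | z.1 ∈ TC a i} :=
    ((TC_open ha i).preimage continuous_fst).measurableSet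
  -- a bound for the weight
  have hwc : Continuous (fun z : E3 × E3 => psi 3 (lam a i z.1) * ⟪z.1 - a i, z.1 - z.2⟫) := by
    have h1 : Continuous (psi 3) := (psi_cd (n := 1) 3).continuous
    have h2 := lam_cont a i
    fun_prop
  obtain ⟨W, hW⟩ := (hK.prod hK).bddAbove_image hwc.abs.continuousOn
  have hWb : ∀ᵐ z ∂σ, |psi 3 (lam a i z.1) * ⟪z.1 - a i, z.1 - z.2⟫| ≤ |W| := by
    filter_upwards [hσ] with z hz
    exact (hW ⟨z, ⟨hz.1, hz.2⟩, rfl⟩).trans (le_abs_self W)
  have hT0f : volume (T0 a) ≠ ⊤ := by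
    have hsub : T0 a ⊆ TT a := by
      intro x hx k
      have := hx k
      unfold bar at this
      linarith
    refine ne_top_of_le_ne_top ?_ (measure_mono hsub)
    rw [vol_TT' ha]
    exact ENNReal.ofReal_ne_top
  have hT0m : MeasurableSet (T0 a) := (T0_open a).measurableSet
  have hsubT : T0 a ⊆ TC a i := by
    rw [TC_bar ha]
    intro x hx k _
    exact hx k
  -- the functional inequality
  have hint1 : ∀ {h : ℝ × ℝ → ℝ}, Continuous h → IntegrableOn (fun z : E3 × E3 =>
      psi 3 (lam a i z.1) * h (tt a i j k z.1) * ⟪z.1 - a i, z.1 - z.2⟫) {z | z.1 ∈ TC a i} σ := by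
    intro h hh
    obtain ⟨C, hC⟩ := h_bd hh
    refine Integrable.of_bound (C := |W| * |C|) ?_ ?_
    · have h1 : Measurable (fun z : E3 × E3 => psi 3 (lam a i z.1)) :=
        ((psi_cd (n := 1) 3).continuous.comp ((lam_cont a i).comp continuous_fst)).measurable
      have h2 : Measurable (fun z : E3 × E3 => h (tt a i j k z.1)) :=
        hh.measurable.comp ((tt_meas i j k).comp measurable_fst)
      have h3 : Measurable (fun z : E3 × E3 => ⟪z.1 - a i, z.1 - z.2⟫) := by fun_prop
      exact ((h1.mul h2).mul h3).aestronglyMeasurable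
    · filter_upwards [ae_restrict_of_ae hWb, ae_restrict_mem hmT] with z hz hz2
      have e : psi 3 (lam a i z.1) * h (tt a i j k z.1) * ⟪z.1 - a i, z.1 - z.2⟫ =
          (psi 3 (lam a i z.1) * ⟪z.1 - a i, z.1 - z.2⟫) * h (tt a i j k z.1) := by ring
      rw [Real.norm_eq_abs, e, abs_mul]
      exact mul_le_mul hz ((hC _ (tt_mem ha hj hk hz2)).trans (le_abs_self C)) (abs_nonneg _)
        (abs_nonneg _)
  have hint2 : ∀ {h : ℝ × ℝ → ℝ}, Continuous h → IntegrableOn (fun x => h (tt a i j k x)) (T0 a) := by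
    intro h hh
    obtain ⟨C, hC⟩ := h_bd hh
    refine Measure.integrableOn_of_bounded (M := C) hT0f
      (hh.measurable.comp (tt_meas i j k)).aestronglyMeasurable ?_
    filter_upwards [ae_restrict_mem hT0m] with x hx
    exact hC _ (tt_mem ha hj hk (hsubT hx))
  -- approximation
  set L := ∫ z in {z | z.1 ∈ TC a i}, psi 3 (lam a i z.1) * h (tt a i j k z.1) *
      ⟪z.1 - a i, z.1 - z.2⟫ ∂σ with hL
  set R := 3 * ∫ x in T0 a, h (tt a i j k x) with hR
  set B : ℝ := |W| * σ.real univ + 3 * volume.real (T0 a) with hB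
  have hB0 : 0 ≤ B := by positivity
  have key : ∀ ε : ℝ, 0 < ε → |L - R| ≤ ε * B := by
    intro ε hε
    obtain ⟨g, hgc, hgd, -⟩ := hh.exists_contDiff_approx (ε := fun _ => ε) n
      continuous_const (fun _ => hε)
    have hg := RAD_smooth ha hK hσ hn hU hgc hj hk hlay
    have hLd : |L - ∫ z in {z | z.1 ∈ TC a i}, psi 3 (lam a i z.1) * g (tt a i j k z.1) *
        ⟪z.1 - a i, z.1 - z.2⟫ ∂σ| ≤ ε * |W| * σ.real univ := by
      rw [hL, ← integral_sub (hint1 hh) (hint1 hgc.continuous), ← Real.norm_eq_abs]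
      have h1 : ∀ᵐ z ∂(σ.restrict {z | z.1 ∈ TC a i}), ‖psi 3 (lam a i z.1) *
          h (tt a i j k z.1) * ⟪z.1 - a i, z.1 - z.2⟫ - psi 3 (lam a i z.1) *
          g (tt a i j k z.1) * ⟪z.1 - a i, z.1 - z.2⟫‖ ≤ ε * |W| := by
        filter_upwards [ae_restrict_of_ae hWb] with z hz
        have e : psi 3 (lam a i z.1) * h (tt a i j k z.1) * ⟪z.1 - a i, z.1 - z.2⟫ -
            psi 3 (lam a i z.1) * g (tt a i j k z.1) * ⟪z.1 - a i, z.1 - z.2⟫ =
            (h (tt a i j k z.1) - g (tt a i j k z.1)) *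
              (psi 3 (lam a i z.1) * ⟪z.1 - a i, z.1 - z.2⟫) := by ring
        rw [Real.norm_eq_abs, e, abs_mul]
        refine mul_le_mul ?_ hz (abs_nonneg _) hε.le
        have h2 := (hgd (tt a i j k z.1)).le
        rw [dist_comm, Real.dist_eq] at h2
        exact h2
      refine (norm_integral_le_of_norm_le_const h1).trans ?_
      refine mul_le_mul_of_nonneg_left ?_ (by positivity)
      rw [measureReal_restrict_apply_univ]
      exact measureReal_mono (subset_univ _)
    have hRd : |(3 * ∫ x in T0 a, g (tt a i j k x)) - R| ≤ ε * (3 * volume.real (T0 a)) := by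
      rw [hR, ← mul_sub, ← integral_sub (hint2 hgc.continuous) (hint2 hh), abs_mul,
        abs_of_pos (by norm_num : (0 : ℝ) < 3), ← Real.norm_eq_abs (∫ x in T0 a, _)]
      have h1 : ‖∫ x in T0 a, (g (tt a i j k x) - h (tt a i j k x))‖ ≤ ε * volume.real (T0 a) :=
        norm_setIntegral_le_of_norm_le_const hT0f.lt_top fun x _ => by
          have h2 := (hgd (tt a i j k x)).le
          rw [Real.dist_eq] at h2
          exact h2
      calc 3 * ‖∫ x in T0 a, (g (tt a i j k x) - h (tt a i j k x))‖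
          ≤ 3 * (ε * volume.real (T0 a)) := mul_le_mul_of_nonneg_left h1 (by norm_num)
        _ = ε * (3 * volume.real (T0 a)) := by ring
    rw [hg] at hLd
    calc |L - R| = |(L - 3 * ∫ x in T0 a, g (tt a i j k x)) +
          ((3 * ∫ x in T0 a, g (tt a i j k x)) - R)| := by congr 1; ring
      _ ≤ _ := abs_add_le _ _
      _ ≤ ε * |W| * σ.real univ + ε * (3 * volume.real (T0 a)) := add_le_add hLd hRd
      _ = ε * B := by rw [hB]; ring
  have h0 : |L - R| ≤ 0 := by
    refine le_of_forall_pos_le_add fun δ hδ => ?_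
    have h1 := key (δ / (B + 1)) (by positivity)
    have h2 : δ / (B + 1) * B ≤ δ := by
      rw [div_mul_eq_mul_div, div_le_iff₀ (by positivity)]
      nlinarith
    linarith
  have h1 : |L - R| = 0 := le_antisymm h0 (abs_nonneg _)
  exact sub_eq_zero.1 (abs_eq_zero.1 h1)

end

end Helper14.MEI3
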