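import Pool.Agent.Helper14.MEI2.Part
import Pool.Agent.Helper14.MEI3.Cyl

/-!
# Radial fields in the cones of the tetrahedron
-/

namespace Helper14.MEI3

open Set Metric MeasureTheory Filter Helper80.CW Helper82.CW Helper14.CW Helper14.MEI2
open Helper93.MEI Helper22.Sig
open scoped Topology RealInnerProductSpace

variable {a : Fin 4 → E3}

/-- the gauge of the cone at `a i`: `1` on the plane of the opposite face -/
noncomputable def lam (a : Fin 4 → E3) (i : Fin 4) (x : E3) : ℝ := 1 - bar a i x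

theorem lam_cont (a : Fin 4 → E3) (i : Fin 4) : Continuous (lam a i) := by
  have := bar_cont a i
  unfold lam
  fun_prop

theorem bar_hasFDerivAt (a : Fin 4 → E3) (k : Fin 4) (x : E3) :
    HasFDerivAt (bar a k) ((2 : ℝ) • innerSL ℝ (al a k)) x := by
  have h0 : HasFDerivAt (fun y : E3 => (innerSL ℝ (al a k)) (y - cen a)) (innerSL ℝ (al a k)) x := by
    have h1 : HasFDerivAt (fun y : E3 => y - cen a) (ContinuousLinearMap.id ℝ E3) x :=
      (hasFDerivAt_id (𝕜 := ℝ) x).sub_const _
    exact (innerSL ℝ (al a k)).hasFDerivAt.comp x h1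
  have h2 := (h0.const_mul 2).const_add (1 / 4)
  exact h2

theorem bar_cd (a : Fin 4 → E3) (k : Fin 4) {n : WithTop ℕ∞} : ContDiff ℝ n (bar a k) := by
  have h : ContDiff ℝ n (fun y : E3 => 1 / 4 + 2 * (innerSL ℝ (al a k)) (y - cen a)) :=
    contDiff_const.add (contDiff_const.mul ((innerSL ℝ (al a k)).contDiff.comp
      (contDiff_id.sub contDiff_const)))
  exact h

theorem lam_cd (a : Fin 4 → E3) (i : Fin 4) {n : WithTop ℕ∞} : ContDiff ℝ n (lam a i) :=
  contDiff_const.sub (bar_cd a i)

theorem lam_hasFDerivAt (a : Fin 4 → E3) (i : Fin 4) (x : E3) :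
    HasFDerivAt (lam a i) (-((2 : ℝ) • innerSL ℝ (al a i))) x :=
  (bar_hasFDerivAt a i x).const_sub 1

/-- differences of barycentric coordinates -/
theorem bar_sub (a : Fin 4 → E3) (k : Fin 4) (x y : E3) :
    bar a k x - bar a k y = 2 * ⟪al a k, x - y⟫ := by
  unfold bar
  have e : x - y = (x - cen a) - (y - cen a) := by abel
  rw [e, inner_sub_right (al a k) (x - cen a) (y - cen a)]
  ring

section
variable (ha : ∀ i j, i ≠ j → dist (a i) (a j) = 1)
include ha

theorem bar_ray (i k : Fin 4) (s : ℝ) (x : E3) :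
    bar a k (a i + s • (x - a i)) = (if k = i then 1 else 0) + s * (bar a k x - if k = i then 1 else 0) := by
  have g := gram_of_dist ha
  have h1 := bar_sub a k (a i + s • (x - a i)) (a i)
  have h2 := bar_sub a k x (a i)
  have h3 := bar_vertex g k i
  rw [add_sub_cancel_left, real_inner_smul_right] at h1
  rw [h3] at h1 h2
  linear_combination h1 - s * h2

theorem lam_ray (i : Fin 4) (s : ℝ) (x : E3) : lam a i (a i + s • (x - a i)) = s * lam a i x := by
  unfold lam
  rw [bar_ray ha, if_pos rfl]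
  ring

theorem bar_ray_ne {i k : Fin 4} (hk : k ≠ i) (s : ℝ) (x : E3) :
    bar a k (a i + s • (x - a i)) = s * bar a k x := by
  rw [bar_ray ha, if_neg hk]
  ring

theorem lam_fd (i : Fin 4) (x : E3) : (fderiv ℝ (lam a i) x) (x - a i) = lam a i x := by
  have g := gram_of_dist ha
  rw [(lam_hasFDerivAt a i x).fderiv]
  have h1 := bar_sub a i x (a i)
  rw [bar_vertex_self g] at h1
  simp only [ContinuousLinearMap.neg_apply, ContinuousLinearMap.smul_apply, innerSL_apply_apply,
    smul_eq_mul]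
  unfold lam
  linarith

/-- on the cone `lam` is the sum of the three other coordinates -/
theorem lam_pos {i : Fin 4} {x : E3} (hx : x ∈ TC a i) : 0 < lam a i x := by
  have g := gram_of_dist ha
  rw [TC_bar ha] at hx
  have hs := bar_sum g x
  unfold lam
  have h : ∀ k, k ≠ i → 0 < bar a k x := hx
  fin_cases i
  · have h1 := h 1 (by decide)
    have h2 := h 2 (by decide)
    have h3 := h 3 (by decide)
    show 0 < 1 - bar a 0 x
    linarith
  · have h1 := h 0 (by decide)
    have h2 := h 2 (by decide)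
    have h3 := h 3 (by decide)
    show 0 < 1 - bar a 1 x
    linarith
  · have h1 := h 0 (by decide)
    have h2 := h 1 (by decide)
    have h3 := h 3 (by decide)
    show 0 < 1 - bar a 2 x
    linarith
  · have h1 := h 0 (by decide)
    have h2 := h 1 (by decide)
    have h3 := h 2 (by decide)
    show 0 < 1 - bar a 3 x
    linarith

/-- on the cone the distance to the apex is at most `lam` -/
theorem norm_le_lam {i : Fin 4} {x : E3} (hx : x ∈ TC a i) : ‖x - a i‖ ≤ lam a i x := by
  have g := gram_of_dist ha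
  have hl := lam_pos ha hx
  have hx' := hx
  rw [TC_bar ha] at hx'
  have hs := bar_sum g x
  have hn := norm_sub_sq_bar g x (a i)
  have h : ∀ k, k ≠ i → 0 < bar a k x := hx'
  have hv : ∀ k, bar a k (a i) = if k = i then 1 else 0 := fun k => bar_vertex g k i
  rw [hv, hv, hv, hv] at hn
  have hsq : ‖x - a i‖ ^ 2 ≤ lam a i x ^ 2 := by
    rw [hn]
    unfold lam
    fin_cases i
    · have h1 := h 1 (by decide)
      have h2 := h 2 (by decide)
      have h3 := h 3 (by decide)
      simp only [Fin.reduceFinMk, Fin.zero_eta, if_pos, show (1 : Fin 4) ≠ 0 by decide,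
        show (2 : Fin 4) ≠ 0 by decide, show (3 : Fin 4) ≠ 0 by decide, if_false]
      have e : 1 - bar a 0 x = bar a 1 x + bar a 2 x + bar a 3 x := by linarith
      rw [e, show bar a 0 x - 1 = -(bar a 1 x + bar a 2 x + bar a 3 x) by linarith]
      nlinarith [mul_pos h1 h2, mul_pos h1 h3, mul_pos h2 h3]
    · have h1 := h 0 (by decide)
      have h2 := h 2 (by decide)
      have h3 := h 3 (by decide)
      simp only [Fin.reduceFinMk, Fin.mk_one, if_pos, show (0 : Fin 4) ≠ 1 by decide,
        show (2 : Fin 4) ≠ 1 by decide, show (3 : Fin 4) ≠ 1 by decide, if_false]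
      have e : 1 - bar a 1 x = bar a 0 x + bar a 2 x + bar a 3 x := by linarith
      rw [e, show bar a 1 x - 1 = -(bar a 0 x + bar a 2 x + bar a 3 x) by linarith]
      nlinarith [mul_pos h1 h2, mul_pos h1 h3, mul_pos h2 h3]
    · have h1 := h 0 (by decide)
      have h2 := h 1 (by decide)
      have h3 := h 3 (by decide)
      simp only [Fin.reduceFinMk, if_pos, show (0 : Fin 4) ≠ 2 by decide,
        show (1 : Fin 4) ≠ 2 by decide, show (3 : Fin 4) ≠ 2 by decide, if_false]
      have e : 1 - bar a 2 x = bar a 0 x + bar a 1 x + bar a 3 x := by linarith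
      rw [e, show bar a 2 x - 1 = -(bar a 0 x + bar a 1 x + bar a 3 x) by linarith]
      nlinarith [mul_pos h1 h2, mul_pos h1 h3, mul_pos h2 h3]
    · have h1 := h 0 (by decide)
      have h2 := h 1 (by decide)
      have h3 := h 2 (by decide)
      simp only [Fin.reduceFinMk, if_pos, show (0 : Fin 4) ≠ 3 by decide,
        show (1 : Fin 4) ≠ 3 by decide, show (2 : Fin 4) ≠ 3 by decide, if_false]
      have e : 1 - bar a 3 x = bar a 0 x + bar a 1 x + bar a 2 x := by linarith
      rw [e, show bar a 3 x - 1 = -(bar a 0 x + bar a 1 x + bar a 2 x) by linarith]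
      nlinarith [mul_pos h1 h2, mul_pos h1 h3, mul_pos h2 h3]
  exact abs_le_of_sq_le_sq' hsq hl.le |>.2

/-- divergence of a radial field -/
theorem dvg_rad (i : Fin 4) {Φ : E3 → ℝ} {x : E3} (hΦ : DifferentiableAt ℝ Φ x) :
    dvg (fun y => Φ y • (y - a i)) x = 3 * Φ x + fderiv ℝ Φ x (x - a i) := by
  have h1 : DifferentiableAt ℝ (fun y : E3 => (1 : ℝ) • (y - a i)) x := by fun_prop
  have h2 := dvg_smul (G := fun y : E3 => (1 : ℝ) • (y - a i)) hΦ h1
  rw [dvg_radial] at h2
  simp only [one_smul] at h2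
  rw [h2]
  ring

omit ha in
/-- the derivative of a function constant along the ray -/
theorem fd_ray {i : Fin 4} {H : E3 → ℝ} {x : E3} (hH : DifferentiableAt ℝ H x)
    (hc : ∀ᶠ s in 𝓝 (1 : ℝ), H (a i + s • (x - a i)) = H x) :
    fderiv ℝ H x (x - a i) = 0 := by
  have hx : a i + (1 : ℝ) • (x - a i) = x := by rw [one_smul]; abel
  have h1 : HasDerivAt (fun s : ℝ => a i + s • (x - a i)) (x - a i) 1 := by
    have h := ((hasDerivAt_id (1 : ℝ)).smul_const (x - a i)).const_add (a i)
    simpa using h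
  have hH' : HasFDerivAt H (fderiv ℝ H x) (a i + (1 : ℝ) • (x - a i)) := by
    rw [hx]; exact hH.hasFDerivAt
  have h2 := hH'.comp_hasDerivAt (1 : ℝ) h1
  have h3 : HasDerivAt (fun _ : ℝ => H x) 0 1 := hasDerivAt_const _ _
  have h4 : HasDerivAt (H ∘ fun s : ℝ => a i + s • (x - a i)) 0 1 :=
    h3.congr_of_eventuallyEq (by filter_upwards [hc] with s hs; exact hs)
  exact h2.unique h4

/-- the walls of the cone -/
theorem TC_Cel (i : Fin 4) : TC a i = Cel (fun k : {k : Fin 4 // k ≠ i} => al a k)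
    (fun k => ⟪al a k, cen a⟫ - 1 / 8) := by
  rw [TC_bar ha]
  ext x
  unfold Cel
  simp only [mem_setOf_eq, Subtype.forall]
  constructor
  · intro h k hk
    have := h k hk
    unfold bar at this
    rw [inner_sub_right] at this
    linarith
  · intro h k hk
    have := h k hk
    unfold bar
    rw [inner_sub_right]
    linarith

theorem rad_tang (i : Fin 4) (Φ : E3 → ℝ) : Tang (fun k : {k : Fin 4 // k ≠ i} => al a k)
    (fun k => ⟪al a k, cen a⟫ - 1 / 8) (fun y => Φ y • (y - a i)) := by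
  have g := gram_of_dist ha
  rintro ⟨k, hk⟩ x hx
  simp only at hx ⊢
  rw [real_inner_smul_right]
  have h1 := bar_sub a k x (a i)
  rw [bar_vertex_ne g hk] at h1
  have h2 : bar a k x = 0 := by
    unfold bar
    rw [inner_sub_right]
    linarith
  rw [h2] at h1
  have h3 : ⟪al a k, x - a i⟫ = 0 := by linarith
  rw [h3, mul_zero]

/-- **flux of a radial field in the cone** -/
theorem rad_flux {σ : Measure (E3 × E3)} [IsFiniteMeasure σ] {K : Set E3} (hK : IsCompact K)
    (hσ : ∀ᵐ z ∂σ, z.1 ∈ K ∧ z.2 ∈ K) {n : ℕ∞} (hn : 1 ≤ n)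
    (hU : ∀ G : E3 → E3, ContDiff ℝ n G → ∫ z, ⟪G z.1, z.1 - z.2⟫ ∂σ = ∫ x in K, dvg G x)
    (i : Fin 4) {Φ : E3 → ℝ} (hΦ : ContDiff ℝ n Φ) :
    ∫ z in {z | z.1 ∈ TC a i}, Φ z.1 * ⟪z.1 - a i, z.1 - z.2⟫ ∂σ =
      ∫ x in K ∩ TC a i, (3 * Φ x + fderiv ℝ Φ x (x - a i)) := by
  have hG : ContDiff ℝ n (fun y => Φ y • (y - a i)) := hΦ.smul (contDiff_id.sub contDiff_const)
  have h1 := S2_cell hK hσ hn hU _ _ hG (rad_tang ha i Φ)
  rw [← TC_Cel ha i] at h1
  have h2 : ∀ z : E3 × E3, ⟪(fun y => Φ y • (y - a i)) z.1, z.1 - z.2⟫ =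
      Φ z.1 * ⟪z.1 - a i, z.1 - z.2⟫ := fun z => real_inner_smul_left _ _ _
  simp only [h2] at h1
  rw [h1]
  refine integral_congr_ae (Eventually.of_forall fun x => ?_)
  exact dvg_rad ha i ((hΦ.differentiable (by
    have : (n : WithTop ℕ∞) ≠ 0 := by
      intro h0
      have h1' : n = 0 := by exact_mod_cast h0
      rw [h1'] at hn
      exact absurd hn (by simp)
    exact this)) x)

end

end Helper14.MEI3
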